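import Pool.Agent.H550R2.WH.Count

set_option autoImplicit false
set_option linter.unusedSectionVars false

/-! Linear algebra for the reductions. -/

namespace Pool.Agent.H550R2.WH

open Finset Module Pool.Agent.H550R2.Lift Pool.Agent.H550R2.Lin

section general

/-- a bilinear form represents the functionals that vanish on its kernel -/
theorem exists_rep {A B : Type*} [AddCommGroup A] [Module (ZMod 2) A] [AddCommGroup B]
    [Module (ZMod 2) B] [FiniteDimensional (ZMod 2) A] (f : A →ₗ[ZMod 2] B →ₗ[ZMod 2] ZMod 2)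
    (φ : A →ₗ[ZMod 2] ZMod 2) (h : ∀ x, (∀ y, f x y = 0) → φ x = 0) : ∃ y, ∀ x, φ x = f x y := by
  have h1 : φ ∈ (LinearMap.range f.flip).dualCoannihilator.dualAnnihilator := by
    rw [Submodule.mem_dualAnnihilator]
    intro x hx
    apply h
    intro y
    exact (Submodule.mem_dualCoannihilator x).1 hx (f.flip y) ⟨y, rfl⟩
  rw [Subspace.dualCoannihilator_dualAnnihilator_eq] at h1
  obtain ⟨y, hy⟩ := h1
  exact ⟨y, fun x => by rw [← hy]; rfl⟩

theorem finrank_le_of_card {M : Type*} [AddCommGroup M] [Module (ZMod 2) M] [Fintype M] {L : ℕ}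
    (h : Fintype.card M ≤ 2 ^ L) : finrank (ZMod 2) M ≤ L := by
  rw [Module.card_eq_pow_finrank (K := ZMod 2), ZMod.card] at h
  exact (Nat.pow_le_pow_iff_right (by norm_num)).1 h

theorem finrank_dual_le {M : Type*} [AddCommGroup M] [Module (ZMod 2) M]
    [FiniteDimensional (ZMod 2) M] :
    finrank (ZMod 2) (M →ₗ[ZMod 2] ZMod 2) ≤ finrank (ZMod 2) M :=
  le_of_eq (Subspace.dual_finrank_eq (K := ZMod 2) (V := M))

variable {M E : Type*} [AddCommGroup M] [Module (ZMod 2) M] [FiniteDimensional (ZMod 2) M]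
  [AddCommGroup E] [Module (ZMod 2) E] [FiniteDimensional (ZMod 2) E]

theorem finrank_map_inf (f : M →ₗ[ZMod 2] E) (U : Submodule (ZMod 2) M) :
    finrank (ZMod 2) (U.map f) + finrank (ZMod 2) (U ⊓ LinearMap.ker f : Submodule (ZMod 2) M) =
      finrank (ZMod 2) U := by
  have h1 := LinearMap.finrank_range_add_finrank_ker (f.domRestrict U)
  rw [LinearMap.range_domRestrict] at h1
  rw [← h1]
  congr 1
  have h2 : (LinearMap.ker (f.domRestrict U)).map U.subtype = U ⊓ LinearMap.ker f := by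
    ext x
    rw [Submodule.mem_map, Submodule.mem_inf]
    constructor
    · rintro ⟨y, hy, rfl⟩
      exact ⟨y.2, hy⟩
    · rintro ⟨h3, h4⟩
      exact ⟨⟨x, h3⟩, h4, rfl⟩
  rw [← h2]
  exact ((Submodule.equivMapOfInjective U.subtype U.subtype_injective _).finrank_eq).symm

/-- ranks of images of a pair of spaces -/
theorem finrank_map_le_add (f : M →ₗ[ZMod 2] E) {Q U : Submodule (ZMod 2) M} (hQ : Q ≤ U) {r : ℕ}
    (hr : finrank (ZMod 2) U ≤ finrank (ZMod 2) Q + r) :
    finrank (ZMod 2) (U.map f) ≤ finrank (ZMod 2) (Q.map f) + r := by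
  have h1 := finrank_map_inf f U
  have h2 := finrank_map_inf f Q
  have h3 : finrank (ZMod 2) (Q ⊓ LinearMap.ker f : Submodule (ZMod 2) M) ≤
      finrank (ZMod 2) (U ⊓ LinearMap.ker f : Submodule (ZMod 2) M) :=
    Submodule.finrank_mono (inf_le_inf_right _ hQ)
  omega

end general

section rank

variable {J : Type} [Fintype J] [DecidableEq J] {κ : ℕ}

/-- a column of a combination, modulo a space -/
def colm (P : Submodule (ZMod 2) (J → ZMod 2)) (i : Fin (κ + 1)) :
    (Rows J κ → ZMod 2) →ₗ[ZMod 2] (J → ZMod 2) ⧸ P :=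
  P.mkQ.comp (LinearMap.funLeft (ZMod 2) (ZMod 2) fun j => (j, i))

theorem colm_apply (P : Submodule (ZMod 2) (J → ZMod 2)) (i : Fin (κ + 1))
    (x : Rows J κ → ZMod 2) : colm P i x = P.mkQ fun j => x (j, i) := rfl

open Classical in
/-- **Combinations that touch few columns span few constant combinations.** -/
theorem rank_le (P : Submodule (ZMod 2) (J → ZMod 2)) (X : Set (Rows J κ → ZMod 2)) {w r : ℕ}
    (hX : ∀ x ∈ X, wt x ≤ w) (Q : Submodule (ZMod 2) (Rows J κ → ZMod 2))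
    (hQ : Q ≤ Submodule.span (ZMod 2) X)
    (hr : finrank (ZMod 2) (Submodule.span (ZMod 2) X) ≤ finrank (ZMod 2) Q + r)
    (hc : ∀ x ∈ Q, ∀ i, colm P i x = colm P 0 x) :
    (κ + 1) * finrank (ZMod 2) (Q.map (colm P 0)) ≤
      w * (finrank (ZMod 2) (Q.map (colm P 0)) + r) := by
  set E := (J → ZMod 2) ⧸ P with hE
  let q : (Rows J κ → ZMod 2) →ₗ[ZMod 2] (Fin (κ + 1) → E) := LinearMap.pi fun i => colm P i
  set U := Submodule.span (ZMod 2) X with hU
  set D := finrank (ZMod 2) (Q.map (colm P 0)) with hD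
  have h1 : finrank (ZMod 2) (U.map q) ≤ finrank (ZMod 2) (Q.map q) + r :=
    finrank_map_le_add q hQ hr
  have h2 : finrank (ZMod 2) (Q.map q) ≤ D := by
    have h3 : Q.map q ≤ (Q.map (colm P 0)).map (LinearMap.pi fun _ : Fin (κ + 1) => LinearMap.id) := by
      rintro _ ⟨x, hx, rfl⟩
      refine ⟨colm P 0 x, ⟨x, hx, rfl⟩, ?_⟩
      funext i
      exact (hc x hx i).symm
    exact (Submodule.finrank_mono h3).trans (Submodule.finrank_map_le _ _)
  have hmap : U.map q = Submodule.span (ZMod 2) (q '' X) := by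
    rw [hU, Submodule.map_span]
  obtain ⟨f, hf1, hf2', -⟩ := Submodule.exists_fun_fin_finrank_span_eq (ZMod 2) (q '' X)
  have hf2 : Submodule.span (ZMod 2) (Set.range f) = U.map q := hf2'.trans hmap.symm
  choose x hx1 hx2 using hf1
  have h4 : ∀ i : Fin (κ + 1), D ≤ (univ.filter fun n => ∃ j, x n (j, i) ≠ 0).card := by
    intro i
    let S : Finset E := (univ.filter fun n => ∃ j, x n (j, i) ≠ 0).image fun n => f n i
    have h5 : Q.map (colm P 0) ≤ Submodule.span (ZMod 2) (S : Set E) := by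
      rintro _ ⟨y, hy, rfl⟩
      have h6 : q y ∈ Submodule.span (ZMod 2) (Set.range f) := by
        rw [hf2]
        exact ⟨y, hQ hy, rfl⟩
      have h7 : colm P 0 y = (LinearMap.proj i : (Fin (κ + 1) → E) →ₗ[ZMod 2] E) (q y) :=
        (hc y hy i).symm
      rw [h7]
      have h8 : (LinearMap.proj i : (Fin (κ + 1) → E) →ₗ[ZMod 2] E) (q y) ∈
          (Submodule.span (ZMod 2) (Set.range f)).map
            (LinearMap.proj i : (Fin (κ + 1) → E) →ₗ[ZMod 2] E) := ⟨_, h6, rfl⟩
      rw [Submodule.map_span] at h8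
      refine Submodule.span_le.2 ?_ h8
      rintro _ ⟨_, ⟨n, rfl⟩, rfl⟩
      by_cases hn : ∃ j, x n (j, i) ≠ 0
      · apply Submodule.subset_span
        exact Finset.mem_coe.2 (Finset.mem_image.2 ⟨n, Finset.mem_filter.2 ⟨Finset.mem_univ _, hn⟩, rfl⟩)
      · have h9 : (LinearMap.proj i : (Fin (κ + 1) → E) →ₗ[ZMod 2] E) (f n) = 0 := by
          rw [← hx2 n]
          show P.mkQ (fun j => x n (j, i)) = 0
          have h10 : (fun j => x n (j, i)) = 0 := by
            funext j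
            by_contra h11
            exact hn ⟨j, h11⟩
          rw [h10, map_zero]
        rw [h9]
        exact Submodule.zero_mem _
    calc D ≤ finrank (ZMod 2) (Submodule.span (ZMod 2) (S : Set E)) := Submodule.finrank_mono h5
      _ ≤ S.card := finrank_span_finset_le_card S
      _ ≤ _ := Finset.card_image_le
  have h5 : ∑ _i : Fin (κ + 1), D ≤ ∑ n, wt (x n) := by
    refine (Finset.sum_le_sum fun i _ => h4 i).trans ?_
    simp_rw [wt, Finset.card_filter]
    rw [Finset.sum_comm]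
  rw [Finset.sum_const, Finset.card_univ, Fintype.card_fin, smul_eq_mul] at h5
  refine h5.trans ?_
  calc ∑ n, wt (x n) ≤ ∑ _n : Fin (finrank (ZMod 2) (Submodule.span (ZMod 2) (q '' X))), w :=
        Finset.sum_le_sum fun n _ => hX _ (hx1 n)
    _ = w * finrank (ZMod 2) (U.map q) := by
        rw [Finset.sum_const, Finset.card_univ, Fintype.card_fin, smul_eq_mul, mul_comm, hmap]
    _ ≤ w * (D + r) := Nat.mul_le_mul_left _ (by omega)

end rank

section stabilizer

variable {V : Type} [Fintype V] [DecidableEq V]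

/-- the pairing -/
def prL : (V → ZMod 2) →ₗ[ZMod 2] (V → ZMod 2) →ₗ[ZMod 2] ZMod 2 :=
  LinearMap.mk₂ (ZMod 2) pr (fun S S' y => pr_add_left S S' y)
    (fun c S y => by
      unfold pr
      rw [smul_eq_mul, Finset.mul_sum]
      apply Finset.sum_congr rfl
      intro a _
      rw [Pi.smul_apply, smul_eq_mul, mul_assoc])
    (fun S y y' => pr_add_right S y y')
    (fun c S y => by
      unfold pr
      rw [smul_eq_mul, Finset.mul_sum]
      apply Finset.sum_congr rfl
      intro a _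
      rw [Pi.smul_apply, smul_eq_mul]
      ring)

theorem prL_apply (p y : V → ZMod 2) : prL p y = pr p y := rfl

/-- the stabilizer as a subspace -/
def St {Z : Type} (ρ : Multiplicative (V → ZMod 2) →* Equiv.Perm Z) (z : Z) :
    Submodule (ZMod 2) (V → ZMod 2) := AddSubgroup.toZModSubmodule 2 (stab ρ z)

theorem mem_St {Z : Type} (ρ : Multiplicative (V → ZMod 2) →* Equiv.Perm Z) (z : Z)
    (γ : V → ZMod 2) : γ ∈ St ρ z ↔ ρ (Multiplicative.ofAdd γ) z = z := by
  rw [← mem_stab ρ z γ]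
  exact AddSubgroup.mem_toZModSubmodule 2

/-- **A small orbit has a large stabilizer.** -/
theorem exists_compl {Z : Type} [Fintype Z] (ρ : Multiplicative (V → ZMod 2) →* Equiv.Perm Z)
    (z : Z) {L : ℕ} (hZ : Fintype.card Z ≤ 2 ^ L) (W : Submodule (ZMod 2) (V → ZMod 2)) :
    ∃ C : Submodule (ZMod 2) (V → ZMod 2), C ≤ W ∧ W ≤ (W ⊓ St ρ z) ⊔ C ∧
      finrank (ZMod 2) C ≤ L := by
  classical
  obtain ⟨C', hC'⟩ := Submodule.exists_isCompl (W ⊓ St ρ z)
  refine ⟨C' ⊓ W, inf_le_right, ?_, ?_⟩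
  · rw [← sup_inf_assoc_of_le C' (inf_le_left : W ⊓ St ρ z ≤ W), hC'.sup_eq_top, top_inf_eq]
  · apply finrank_le_of_card
    refine le_trans (Fintype.card_le_of_injective
      (fun c : (C' ⊓ W : Submodule (ZMod 2) (V → ZMod 2)) => ρ (Multiplicative.ofAdd c.1) z) ?_) hZ
    intro c c' h
    have h0 : ρ (Multiplicative.ofAdd c.1) z = ρ (Multiplicative.ofAdd c'.1) z := h
    have h1 : c.1 - c'.1 ∈ St ρ z := by
      rw [mem_St, ← neg_add_eq_sub, ofAdd_add, map_mul, Equiv.Perm.mul_apply, h0, ofAdd_neg,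
        map_inv]
      exact Equiv.symm_apply_apply _ _
    have h2 : c.1 - c'.1 ∈ W := Submodule.sub_mem _ c.2.2 c'.2.2
    have h3 : c.1 - c'.1 ∈ C' := Submodule.sub_mem _ c.2.1 c'.2.1
    have h4 : c.1 - c'.1 ∈ (W ⊓ St ρ z) ⊓ C' := ⟨⟨h2, h1⟩, h3⟩
    rw [hC'.inf_eq_bot, Submodule.mem_bot] at h4
    exact Subtype.ext (sub_eq_zero.1 h4)

end stabilizer

section combos

variable {J : Type} [Fintype J] [DecidableEq J] {κ b : ℕ}

/-- the functional of a combination, as a linear map -/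
def colL (a : Rows J κ → Fin b → ZMod 2) : (Rows J κ → ZMod 2) →ₗ[ZMod 2] (Idx J κ b → ZMod 2) :=
  (col a).toZModLinearMap 2

theorem colL_apply (a : Rows J κ → Fin b → ZMod 2) (x : Rows J κ → ZMod 2) :
    colL a x = col a x := rfl

/-- the value on a right-hand side, as a linear map -/
def valL (δ : Rows J κ → ZMod 2) : (Rows J κ → ZMod 2) →ₗ[ZMod 2] ZMod 2 :=
  (val δ).toZModLinearMap 2

theorem valL_apply (δ x : Rows J κ → ZMod 2) : valL δ x = val δ x := rfl

/-- the combinations that are invisible on a group of translations -/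
def Inv (a : Rows J κ → Fin b → ZMod 2) (W : Submodule (ZMod 2) (Idx J κ b → ZMod 2)) :
    Submodule (ZMod 2) (Rows J κ → ZMod 2) where
  carrier := {x | ∀ g ∈ W, pr (col a x) g = 0}
  zero_mem' := fun g _ => by rw [map_zero, pr_zero_left]
  add_mem' := fun {x y} hx hy g hg => by rw [map_add, pr_add_left, hx g hg, hy g hg, add_zero]
  smul_mem' := fun c x hx g hg => by
    rw [← colL_apply, map_smul, colL_apply, ← prL_apply, map_smul, LinearMap.smul_apply, prL_apply,
      hx g hg, smul_zero]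

theorem mem_Inv (a : Rows J κ → Fin b → ZMod 2) (W : Submodule (ZMod 2) (Idx J κ b → ZMod 2))
    (x : Rows J κ → ZMod 2) : x ∈ Inv a W ↔ ∀ g ∈ W, pr (col a x) g = 0 := Iff.rfl

/-- the generators: combinations that touch few columns -/
def Gens (a : Rows J κ → Fin b → ZMod 2) (w : ℕ)
    (W : Submodule (ZMod 2) (Idx J κ b → ZMod 2)) : Set (Rows J κ → ZMod 2) :=
  {x | wt x ≤ w ∧ x ∈ Inv a W}

theorem span_Gens_le (a : Rows J κ → Fin b → ZMod 2) (w : ℕ)
    (W : Submodule (ZMod 2) (Idx J κ b → ZMod 2)) :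
    Submodule.span (ZMod 2) (Gens a w W) ≤ Inv a W := Submodule.span_le.2 fun _ hx => hx.2

/-- **The functionals that vanish on the invisible combinations come from translations.** -/
theorem exists_g (a : Rows J κ → Fin b → ZMod 2) (U : Submodule (ZMod 2) (Rows J κ → ZMod 2))
    (W : Submodule (ZMod 2) (Idx J κ b → ZMod 2)) (δ : Rows J κ → ZMod 2)
    (h : ∀ x ∈ U ⊓ Inv a W, val δ x = 0) :
    ∃ g ∈ W, ∀ x ∈ U, val δ x = pr (col a x) g := by
  let f : U →ₗ[ZMod 2] W →ₗ[ZMod 2] ZMod 2 :=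
    ((prL (V := Idx J κ b)).compl₁₂ ((colL a).comp U.subtype) W.subtype)
  have hf : ∀ (x : U) (g : W), f x g = pr (col a x.1) g.1 := fun _ _ => rfl
  obtain ⟨g, hg⟩ := exists_rep f ((valL δ).comp U.subtype) (fun x hx => by
    apply h x.1
    refine ⟨x.2, fun g hg => ?_⟩
    exact hx ⟨g, hg⟩)
  exact ⟨g.1, g.2, fun x hx => hg ⟨x, hx⟩⟩

/-- the corank of the invisible combinations -/
theorem corank (a : Rows J κ → Fin b → ZMod 2) (W N C : Submodule (ZMod 2) (Idx J κ b → ZMod 2))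
    (hW : W ≤ N ⊔ C) {L : ℕ} (hL : finrank (ZMod 2) C ≤ L)
    (U : Submodule (ZMod 2) (Rows J κ → ZMod 2)) (hU : U ≤ Inv a N) :
    finrank (ZMod 2) U ≤
      finrank (ZMod 2) (U ⊓ Inv a W : Submodule (ZMod 2) (Rows J κ → ZMod 2)) + L := by
  let f : (Rows J κ → ZMod 2) →ₗ[ZMod 2] C →ₗ[ZMod 2] ZMod 2 :=
    ((prL (V := Idx J κ b)).compl₁₂ (colL a) C.subtype)
  have hf : ∀ (x : Rows J κ → ZMod 2) (g : C), f x g = pr (col a x) g.1 := fun _ _ => rfl
  have h1 := finrank_map_inf f U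
  have h2 : finrank (ZMod 2) (U.map f) ≤ L :=
    (Submodule.finrank_le _).trans (finrank_dual_le.trans hL)
  have h3 : finrank (ZMod 2) (U ⊓ LinearMap.ker f : Submodule (ZMod 2) (Rows J κ → ZMod 2)) ≤
      finrank (ZMod 2) (U ⊓ Inv a W : Submodule (ZMod 2) (Rows J κ → ZMod 2)) := by
    apply Submodule.finrank_mono
    rintro x ⟨hx1, hx2⟩
    refine ⟨hx1, fun g hg => ?_⟩
    obtain ⟨n, hn, c, hc, rfl⟩ := Submodule.mem_sup.1 (hW hg)
    rw [pr_add_right, hU hx1 n hn, zero_add]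
    have h4 : f x = 0 := hx2
    rw [← hf x ⟨c, hc⟩, h4]
    rfl
  omega

end combos

end Pool.Agent.H550R2.WH
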