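import Pool.Agent.H550R2.WH.Sys

set_option autoImplicit false
set_option linter.unusedSectionVars false

/-! Random systems avoid few functionals. -/

namespace Pool.Agent.H550R2.WH

open Finset Pool.Agent.H550R2.Lift Pool.Agent.H550R2.Lin

variable {J : Type} [Fintype J] [DecidableEq J] {κ b : ℕ}

/-- **The number of systems in which a combination has a given value.** -/
theorem count_col (x : Rows J κ → ZMod 2) (p : Idx J κ b → ZMod 2) :
    (univ.filter fun a : Rows J κ → Fin b → ZMod 2 => col a x = p).card * 2 ^ (b * wt x) ≤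
      Fintype.card (Rows J κ → Fin b → ZMod 2) := by
  classical
  set Z : Finset (Fin (κ + 1)) := univ.filter fun i => ∃ j, x (j, i) ≠ 0 with hZ
  have hch : ∀ i : {i // i ∈ Z}, ∃ r : Rows J κ, x r ≠ 0 ∧ r.2 = i.1 := by
    rintro ⟨i, hi⟩
    obtain ⟨j, hj⟩ := (Finset.mem_filter.1 hi).2
    exact ⟨(j, i), hj, rfl⟩
  choose c hc1 hc2 using hch
  have hcinj : Function.Injective c := by
    intro i j h
    apply Subtype.ext
    rw [← hc2 i, ← hc2 j, h]
  let sh : ({i // i ∈ Z} → Fin b → ZMod 2) → Rows J κ → Fin b → ZMod 2 := fun z r β =>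
    ∑ i, if c i = r then z i β else 0
  have hshz : ∀ z j β, sh z (c j) β = z j β := by
    intro z j β
    show ∑ i', (if c i' = c j then z i' β else 0) = z j β
    rw [Finset.sum_eq_single j]
    · rw [if_pos rfl]
    · intro j' _ hj
      exact if_neg fun h => hj (hcinj h)
    · intro h
      exact absurd (Finset.mem_univ _) h
  have hsh0 : ∀ z r β, (∀ j, c j ≠ r) → sh z r β = 0 := by
    intro z r β h
    apply Finset.sum_eq_zero
    intro i _
    exact if_neg (h i)
  have hsh : ∀ z a, ∀ i : {i // i ∈ Z}, ∀ β,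
      col (a + sh z) x (Sum.inl (i.1, β)) = col a x (Sum.inl (i.1, β)) + z i β := by
    intro z a i β
    rw [col_inl, col_inl]
    have h1 : ∀ j, x (j, i.1) * (a + sh z) (j, i.1) β =
        x (j, i.1) * a (j, i.1) β + x (j, i.1) * sh z (j, i.1) β := by
      intro j
      rw [← mul_add]
      rfl
    have h1' : ∑ j, x (j, ((i.1, β) : Fin (κ + 1) × Fin b).1) *
        (a + sh z) (j, ((i.1, β) : Fin (κ + 1) × Fin b).1) ((i.1, β) : Fin (κ + 1) × Fin b).2 =
        ∑ j, (x (j, i.1) * a (j, i.1) β + x (j, i.1) * sh z (j, i.1) β) :=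
      Finset.sum_congr rfl fun j _ => h1 j
    rw [h1', Finset.sum_add_distrib]
    congr 1
    rw [Finset.sum_eq_single (c i).1]
    · have h2 : c i = ((c i).1, i.1) := Prod.ext rfl (hc2 i)
      rw [← h2, hshz, (zmod2_cases _).resolve_left (hc1 i), one_mul]
    · intro j _ hne
      have h3 : ∀ j', c j' ≠ (j, i.1) := by
        intro j' h
        have h4 : j' = i := by
          apply Subtype.ext
          rw [← hc2 j', h]
        rw [h4] at h
        exact hne (congrArg Prod.fst h).symm
      rw [hsh0 z _ β h3, mul_zero]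
    · intro h
      exact absurd (Finset.mem_univ _) h
  have hinj : Function.Injective (fun z : {a : Rows J κ → Fin b → ZMod 2 // col a x = p} ×
      ({i // i ∈ Z} → Fin b → ZMod 2) => (z.1.1 + sh z.2 : Rows J κ → Fin b → ZMod 2)) := by
    rintro ⟨⟨T, hT⟩, z⟩ ⟨⟨T', hT'⟩, z'⟩ h
    have h0 : T + sh z = T' + sh z' := h
    have h1 : z = z' := by
      funext i β
      have h2 := hsh z T i β
      have h3 := hsh z' T' i β
      rw [h0] at h2
      rw [h2, hT, hT'] at h3
      exact add_left_cancel h3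
    rw [h1] at h0
    have h4 : T = T' := add_right_cancel h0
    apply Prod.ext
    · exact Subtype.ext h4
    · exact h1
  have h1 := Fintype.card_le_of_injective _ hinj
  rw [Fintype.card_prod, Fintype.card_subtype, Fintype.card_fun, Fintype.card_fun, ZMod.card,
    Fintype.card_coe, Fintype.card_fin, ← pow_mul] at h1
  exact h1

/-- the part of a combination that is seen by the translations of the families -/
def sp (x : Rows J κ → ZMod 2) : J × Fin κ → ZMod 2 := fun z => x (z.1, 0) + x (z.1, z.2.succ)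

theorem eq_of_sp {x x' : Rows J κ → ZMod 2} (h : sp x = sp x') {i : Fin (κ + 1)}
    (h1 : ∀ j, x (j, i) = 0) (h2 : ∀ j, x' (j, i) = 0) : x = x' := by
  have h0 : ∀ j, x (j, 0) = x' (j, 0) := by
    intro j
    revert h1 h2
    refine Fin.cases ?_ (fun i => ?_) i
    · intro h1 h2
      rw [h1, h2]
    · intro h1 h2
      have h3 := congrFun h (j, i)
      unfold sp at h3
      rw [h1, h2, add_zero, add_zero] at h3
      exact h3
  funext r
  obtain ⟨j, i'⟩ := r
  refine Fin.cases (h0 j) (fun i' => ?_) i'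
  have h3 := congrFun h (j, i')
  unfold sp at h3
  rw [h0 j] at h3
  exact add_left_cancel h3

open Classical in
/-- a combination is almost determined by this part -/
theorem card_cand {w : ℕ} (hw : w ≤ κ) (s : J × Fin κ → ZMod 2) :
    (univ.filter fun x : Rows J κ → ZMod 2 => wt x ≤ w ∧ sp x = s).card ≤ κ + 1 := by
  have hex : ∀ x : Rows J κ → ZMod 2, wt x ≤ w → ∃ i, ∀ j, x (j, i) = 0 := by
    intro x hx
    by_contra hno
    have h1 : (univ.filter fun i : Fin (κ + 1) => ∃ j, x (j, i) ≠ 0) = univ := by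
      rw [Finset.filter_eq_self]
      intro i _
      by_contra h2
      apply hno
      refine ⟨i, fun j => ?_⟩
      by_contra h3
      exact h2 ⟨j, h3⟩
    have h2 : wt x = κ + 1 := by
      unfold wt
      rw [h1, Finset.card_univ, Fintype.card_fin]
    omega
  let f : (Rows J κ → ZMod 2) → Fin (κ + 1) := fun x =>
    if h : ∃ i, ∀ j, x (j, i) = 0 then h.choose else 0
  have h1 : (univ.filter fun x : Rows J κ → ZMod 2 => wt x ≤ w ∧ sp x = s).card ≤
      (univ : Finset (Fin (κ + 1))).card := by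
    apply Finset.card_le_card_of_injOn f (fun _ _ => Finset.mem_coe.2 (Finset.mem_univ _))
    intro x hx x' hx' h
    obtain ⟨h2, h3⟩ := (Finset.mem_filter.1 (Finset.mem_coe.1 hx)).2
    obtain ⟨h4, h5⟩ := (Finset.mem_filter.1 (Finset.mem_coe.1 hx')).2
    have e1 : f x = (hex x h2).choose := dif_pos _
    have e2 : f x' = (hex x' h4).choose := dif_pos _
    have e3 := (hex x h2).choose_spec
    have e4 := (hex x' h4).choose_spec
    rw [← e1] at e3
    rw [← e2, ← h] at e4
    exact eq_of_sp (h3.trans h5.symm) e3 e4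
  rwa [Finset.card_univ, Fintype.card_fin] at h1

open Classical in
/-- **Few systems are bad.** -/
theorem count_bad {w t : ℕ} (hw : w ≤ κ) (C : Finset (Idx J κ b → ZMod 2)) :
    (univ.filter fun a : Rows J κ → Fin b → ZMod 2 =>
      ∃ x, t < wt x ∧ wt x ≤ w ∧ col a x ∈ C).card * 2 ^ (b * (t + 1)) ≤
      ((κ + 1) * C.card) * Fintype.card (Rows J κ → Fin b → ZMod 2) := by
  let X : (Idx J κ b → ZMod 2) → Finset (Rows J κ → ZMod 2) := fun p =>
    univ.filter fun x => t < wt x ∧ wt x ≤ w ∧ sp x = fun z => p (Sum.inr z)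
  have hsub : (univ.filter fun a : Rows J κ → Fin b → ZMod 2 =>
      ∃ x, t < wt x ∧ wt x ≤ w ∧ col a x ∈ C) ⊆
      C.biUnion fun p => (X p).biUnion fun x => univ.filter fun a => col a x = p := by
    intro a ha
    obtain ⟨x, h1, h2, h3⟩ := (Finset.mem_filter.1 ha).2
    rw [Finset.mem_biUnion]
    refine ⟨col a x, h3, ?_⟩
    rw [Finset.mem_biUnion]
    exact ⟨x, Finset.mem_filter.2 ⟨Finset.mem_univ _, h1, h2, rfl⟩,
      Finset.mem_filter.2 ⟨Finset.mem_univ _, rfl⟩⟩
  have hX : ∀ p, (X p).card ≤ κ + 1 := by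
    intro p
    refine le_trans (Finset.card_le_card ?_) (card_cand hw fun z => p (Sum.inr z))
    intro x hx
    obtain ⟨h1, h2, h3⟩ := (Finset.mem_filter.1 hx).2
    exact Finset.mem_filter.2 ⟨Finset.mem_univ _, h2, h3⟩
  calc (univ.filter fun a : Rows J κ → Fin b → ZMod 2 =>
      ∃ x, t < wt x ∧ wt x ≤ w ∧ col a x ∈ C).card * 2 ^ (b * (t + 1))
      ≤ (∑ p ∈ C, ∑ x ∈ X p, (univ.filter fun a : Rows J κ → Fin b → ZMod 2 =>
          col a x = p).card) * 2 ^ (b * (t + 1)) := by
        apply Nat.mul_le_mul_right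
        refine (Finset.card_le_card hsub).trans (Finset.card_biUnion_le.trans ?_)
        exact Finset.sum_le_sum fun p _ => Finset.card_biUnion_le
    _ = ∑ p ∈ C, ∑ x ∈ X p, (univ.filter fun a : Rows J κ → Fin b → ZMod 2 =>
          col a x = p).card * 2 ^ (b * (t + 1)) := by
        rw [Finset.sum_mul]
        exact Finset.sum_congr rfl fun p _ => Finset.sum_mul _ _ _
    _ ≤ ∑ p ∈ C, ∑ x ∈ X p, Fintype.card (Rows J κ → Fin b → ZMod 2) := by
        apply Finset.sum_le_sum
        intro p _
        apply Finset.sum_le_sum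
        intro x hx
        refine le_trans (Nat.mul_le_mul_left _ ?_) (count_col x p)
        apply Nat.pow_le_pow_right (by norm_num)
        exact Nat.mul_le_mul_left _ (Finset.mem_filter.1 hx).2.1
    _ ≤ ∑ _p ∈ C, (κ + 1) * Fintype.card (Rows J κ → Fin b → ZMod 2) := by
        apply Finset.sum_le_sum
        intro p _
        rw [Finset.sum_const, smul_eq_mul]
        exact Nat.mul_le_mul_right _ (hX p)
    _ = _ := by
        rw [Finset.sum_const, smul_eq_mul]
        ring

/-- the homogeneous part of an equation -/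
def hom (a : Rows J κ → Fin b → ZMod 2) (x : Fin (κ + 1) → Fin b → ZMod 2) (j : J) : ZMod 2 :=
  ∑ i, pr (a (j, i)) (x i)

theorem eqv_eq (a : Rows J κ → Fin b → ZMod 2) (τ : Rows J κ → ZMod 2)
    (x : Fin (κ + 1) → Fin b → ZMod 2) (j : J) : eqv a τ x j = hom a x j + ∑ i, τ (j, i) := by
  unfold eqv hom
  rw [Finset.sum_add_distrib]

end Pool.Agent.H550R2.WH
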