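import Pool.Agent.H550R2.LP.CliqDefs

set_option autoImplicit false

/-! Symmetric reductions between levels of the W-hierarchy: definitions. -/

namespace Pool.Agent.H550R2.WH

open Finset Pool.Agent.H550R2.Lift Pool.Agent.H550R2.Lin

/-- The sets: `J` families of `2 ^ κ` sets. -/
abbrev Sets (J : Type) (κ : ℕ) : Type := J × (Fin κ → ZMod 2)

/-- The coordinates of the group of translations of the blocks of elements and of the families of
sets. -/
abbrev Idx (J : Type) (κ b : ℕ) : Type := (Fin (κ + 1) × Fin b) ⊕ (J × Fin κ)

/-- The translations of the families, acting on the sets. -/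
def trS {J : Type} {κ : ℕ} (y : J × Fin κ → ZMod 2) : Equiv.Perm (Sets J κ) :=
  Equiv.prodShear (Equiv.refl _) fun j => Equiv.addRight fun i => y (j, i)

/-- The translations, acting on the pairs of an element and a set. -/
def pS {J : Type} {κ b : ℕ} (y : Idx J κ b → ZMod 2) :
    Equiv.Perm (Ver (κ + 1) b × Sets J κ) :=
  (trV fun z => y (Sum.inl z)).prodCongr (trS fun z => y (Sum.inr z))

open Classical in
/-- The incidence matrix of a set system. -/
noncomputable def inc {J : Type} {κ b : ℕ} (E : Ver (κ + 1) b → Sets J κ → Prop) :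
    Ver (κ + 1) b × Sets J κ → ℝ := fun z => if E z.1 z.2 then 1 else 0

/-- Hitting set: one can choose one element of each block such that every set contains a chosen
element. -/
def Hit {J : Type} {κ b : ℕ} (E : Ver (κ + 1) b → Sets J κ → Prop) : Prop :=
  ∃ x : Fin (κ + 1) → Fin b → ZMod 2, ∀ s, ∃ i, E (i, x i) s

/-- A problem of the third level: one can choose one element of each block such that every set of
the families `J1` contains a chosen element, and, for every `j`, some set of the families `(j, l)`
contains no chosen element. -/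
def Third {J1 M N : Type} {κ b : ℕ} (E : Ver (κ + 1) b → Sets (J1 ⊕ M × N) κ → Prop) : Prop :=
  ∃ x : Fin (κ + 1) → Fin b → ZMod 2, (∀ j σ, ∃ i, E (i, x i) (Sum.inl j, σ)) ∧
    ∀ j, ∃ l σ, ∀ i, ¬ E (i, x i) (Sum.inr (j, l), σ)

/-- A symmetric reduction to structures with universe `Y` and relations of arity `d` named by `Λ`:
the group acts on the universe, and each entry of the relations is computed by an adaptive algorithm
with linear programs which is symmetric under the elements of the group that fix the entries of the
tuple. -/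
structure SRed (I V Λ Y : Type) (d : ℕ) (A : (V → ZMod 2) → Equiv.Perm I) where
  /-- the action on the universe -/
  ρ : Multiplicative (V → ZMod 2) →* Equiv.Perm Y
  /-- the algorithms for the entries -/
  alg : Λ → (Fin d → Y) → LAlg I
  sym : ∀ l o y, (∀ i, ρ (Multiplicative.ofAdd y) (o i) = o i) → (alg l o).Sym (A y)

/-- The structure computed from an input vector. -/
noncomputable def SRed.out {I V Λ Y : Type} {d : ℕ} {A : (V → ZMod 2) → Equiv.Perm I}
    (F : SRed I V Λ Y d A) (v : I → ℝ) : Λ → (Fin d → Y) → Bool := fun l o => (F.alg l o).run v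

/-- The total number of nonnegative variables. -/
def SRed.size {I V Λ Y : Type} {d : ℕ} {A : (V → ZMod 2) → Equiv.Perm I} [Fintype Λ] [Fintype Y]
    (F : SRed I V Λ Y d A) : ℕ := ∑ l, ∑ o, (F.alg l o).size

/-- Translated inputs have translated outputs. -/
def SRed.Equivariant {I V Λ Y : Type} {d : ℕ} {A : (V → ZMod 2) → Equiv.Perm I}
    (F : SRed I V Λ Y d A) : Prop :=
  ∀ v y l o, F.out (fun i => v ((A y).symm i)) l (fun i => F.ρ (Multiplicative.ofAdd y) (o i)) =
    F.out v l o

/-- An existential query with `q` quantifiers. -/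
def Sig1 {Λ Y : Type} {d q : ℕ} (ψ : (Λ → (Fin d → Fin q) → Bool) → Prop)
    (R : Λ → (Fin d → Y) → Bool) : Prop :=
  ∃ T : Fin q → Y, ψ fun l φ => R l fun i => T (φ i)

/-- A query with `q` existential quantifiers followed by `u` universal quantifiers. -/
def Sig2 {Λ Y : Type} {d q u : ℕ} (ψ : (Λ → (Fin d → Fin q ⊕ Fin u) → Bool) → Prop)
    (R : Λ → (Fin d → Y) → Bool) : Prop :=
  ∃ T : Fin q → Y, ∀ S : Fin u → Y, ψ fun l φ => R l fun i => Sum.elim T S (φ i)

end Pool.Agent.H550R2.WH
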