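import Pool.Agent.H550R2.WH.Defs

set_option autoImplicit false

/-! Queries of the third level. -/

namespace Pool.Agent.H550R2.WH

/-- A query with `q` existential, `u` universal and `w` existential quantifiers. -/
def Sig3 {Λ Y : Type} {d q u w : ℕ} (ψ : (Λ → (Fin d → Fin q ⊕ (Fin u ⊕ Fin w)) → Bool) → Prop)
    (R : Λ → (Fin d → Y) → Bool) : Prop :=
  ∃ T : Fin q → Y, ∀ S : Fin u → Y, ∃ S' : Fin w → Y,
    ψ fun l φ => R l fun i => Sum.elim T (Sum.elim S S') (φ i)

end Pool.Agent.H550R2.WH
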