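import Pool.Agent.H550R2.WH.Alg

set_option autoImplicit false
set_option linter.unusedSectionVars false

/-! Symmetric reductions on set systems given by equations, and the first level. -/

namespace Pool.Agent.H550R2.WH

open Finset Module Pool.Agent.H550R2.Lift Pool.Agent.H550R2.Lin

section act

variable {V Y : Type}

/-- the action on tuples -/
def tup (ι : Type) (ρ : Multiplicative (V → ZMod 2) →* Equiv.Perm Y) :
    Multiplicative (V → ZMod 2) →* Equiv.Perm (ι → Y) where
  toFun g := Equiv.piCongrRight fun _ => ρ g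
  map_one' := by
    apply Equiv.ext
    intro c
    funext l
    show ρ 1 (c l) = c l
    rw [map_one]
    rfl
  map_mul' := fun g h => by
    apply Equiv.ext
    intro c
    funext l
    show ρ (g * h) (c l) = ρ g (ρ h (c l))
    rw [map_mul]
    rfl

theorem tup_apply {ι : Type} (ρ : Multiplicative (V → ZMod 2) →* Equiv.Perm Y)
    (g : Multiplicative (V → ZMod 2)) (o : ι → Y) (i : ι) : tup ι ρ g o i = ρ g (o i) := rfl

end act

section chars

variable {I V Λ Y : Type} {d : ℕ} {A : (V → ZMod 2) → Equiv.Perm I} [Fintype V] [DecidableEq V]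
  [Fintype Λ] [Fintype Y] [DecidableEq Y]

open Classical in
/-- the characters of all programs -/
noncomputable def SRed.chars (F : SRed I V Λ Y d A) : Finset (V → ZMod 2) :=
  univ.biUnion fun l => univ.biUnion fun o => (F.alg l o).charsH A (stab (tup (Fin d) F.ρ) o)

theorem SRed.sym' (F : SRed I V Λ Y d A) (l : Λ) (o : Fin d → Y) (y : V → ZMod 2)
    (hy : y ∈ stab (tup (Fin d) F.ρ) o) : (F.alg l o).Sym (A y) :=
  F.sym l o y fun i => congrFun ((mem_stab (tup (Fin d) F.ρ) o y).1 hy) i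

theorem SRed.card_chars (F : SRed I V Λ Y d A) :
    F.chars.card ≤ Fintype.card Y ^ d * F.size := by
  classical
  unfold SRed.chars SRed.size
  refine Finset.card_biUnion_le.trans ?_
  rw [Finset.mul_sum]
  apply Finset.sum_le_sum
  intro l _
  refine Finset.card_biUnion_le.trans ?_
  rw [Finset.mul_sum]
  apply Finset.sum_le_sum
  intro o _
  refine ((F.alg l o).card_charsH A (stab (tup (Fin d) F.ρ) o) (fun y hy => F.sym' l o y hy)).trans ?_
  apply Nat.mul_le_mul_right
  have h1 := card_revealed (tup (Fin d) F.ρ)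
  rw [Fintype.card_fun, Fintype.card_fin] at h1
  refine le_trans (Finset.card_le_card ?_) h1
  intro p hp
  exact Finset.mem_filter.2 ⟨Finset.mem_univ _, o, (Finset.mem_filter.1 hp).2⟩

theorem SRed.mem_chars (F : SRed I V Λ Y d A) {l : Λ} {o : Fin d → Y} {p : V → ZMod 2}
    (h : p ∈ (F.alg l o).charsH A (stab (tup (Fin d) F.ρ) o)) : p ∈ F.chars := by
  classical
  exact Finset.mem_biUnion.2 ⟨l, Finset.mem_univ _, Finset.mem_biUnion.2 ⟨o, Finset.mem_univ _, h⟩⟩

end chars

section loc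

variable {J : Type} [Fintype J] [DecidableEq J] {κ b : ℕ} {Λ Y : Type} {d : ℕ}
  [Fintype Λ] [Fintype Y] [DecidableEq Y]

/-- The system avoids the characters. -/
def Good (a : Rows J κ → Fin b → ZMod 2) (C : Finset (Idx J κ b → ZMod 2)) (t : ℕ) : Prop :=
  ∀ x, t < wt x → wt x ≤ 2 * t → col a x ∉ C

/-- **Local indistinguishability.** -/
theorem local_eq (F : SRed (Ver (κ + 1) b × Sets J κ) (Idx J κ b) Λ Y d pS) {t : ℕ} (ht : 1 ≤ t)
    {a : Rows J κ → Fin b → ZMod 2} (ha : Good a F.chars t) (τ δ : Rows J κ → ZMod 2)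
    (N : Submodule (ZMod 2) (Idx J κ b → ZMod 2)) (hδ : ∀ x ∈ Gens a (2 * t) N, val δ x = 0)
    (l : Λ) (o : Fin d → Y)
    (hN : ∀ γ ∈ N, ∀ i, F.ρ (Multiplicative.ofAdd γ) (o i) = o i) :
    F.out (inc (sys a τ)) l o = F.out (inc (sys a (τ + δ))) l o := by
  refine LAlg.run_eqH pS_add (stab (tup (Fin d) F.ρ) o) wt_add wt_zero (t := t) ?_
    (sys_linked a τ δ ht) (F.alg l o) (fun y hy => F.sym' l o y hy) ?_
  · intro x hx hp
    apply hδ x
    refine ⟨hx, fun g hg => hp g ?_⟩
    rw [mem_stab]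
    funext i
    exact hN g hg i
  · intro x hx hx' hc
    exact ha x hx hx' (F.mem_chars hc)

/-- **Translated right-hand sides.** -/
theorem out_shift (F : SRed (Ver (κ + 1) b × Sets J κ) (Idx J κ b) Λ Y d pS)
    (hF : F.Equivariant) (a : Rows J κ → Fin b → ZMod 2) (τ : Rows J κ → ZMod 2)
    (y : Idx J κ b → ZMod 2) (l : Λ) (o : Fin d → Y) :
    F.out (inc (sys a (τ + phi a y))) l (fun i => F.ρ (Multiplicative.ofAdd y) (o i)) =
      F.out (inc (sys a τ)) l o := by
  rw [← inc_shift]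
  exact hF _ y l o

theorem val_functional (φ : (Rows J κ → ZMod 2) →ₗ[ZMod 2] ZMod 2) (x : Rows J κ → ZMod 2) :
    val (fun r => φ (Pi.single r 1)) x = φ x := by
  rw [val_apply]
  conv_rhs => rw [pi_eq_sum_univ' x]
  rw [map_sum]
  apply Finset.sum_congr rfl
  intro r _
  rw [map_smul, smul_eq_mul]

end loc

section dep

variable {J : Type} [Fintype J] [DecidableEq J] {κ b : ℕ}

/-- the constant combinations -/
def cst : (J → ZMod 2) →ₗ[ZMod 2] (Rows J κ → ZMod 2) :=
  LinearMap.funLeft (ZMod 2) (ZMod 2) Prod.fst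

theorem cst_apply (c : J → ZMod 2) (r : Rows J κ) : (cst c : Rows J κ → ZMod 2) r = c r.1 := rfl

/-- the linear map given by the coefficients -/
def lin (a : Rows J κ → Fin b → ZMod 2) :
    (J → ZMod 2) →ₗ[ZMod 2] (Fin (κ + 1) × Fin b → ZMod 2) where
  toFun c := fun z => ∑ j, c j * a (j, z.1) z.2
  map_add' := fun c c' => by
    funext z
    rw [Pi.add_apply, ← Finset.sum_add_distrib]
    apply Finset.sum_congr rfl
    intro j _
    rw [Pi.add_apply, add_mul]
  map_smul' := fun s c => by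
    funext z
    rw [RingHom.id_apply, Pi.smul_apply, smul_eq_mul, Finset.mul_sum]
    apply Finset.sum_congr rfl
    intro j _
    rw [Pi.smul_apply, smul_eq_mul, mul_assoc]

theorem lin_apply (a : Rows J κ → Fin b → ZMod 2) (c : J → ZMod 2) (z : Fin (κ + 1) × Fin b) :
    lin a c z = ∑ j, c j * a (j, z.1) z.2 := rfl

theorem col_cst (a : Rows J κ → Fin b → ZMod 2) (c : J → ZMod 2) (hc : lin a c = 0) :
    col a (cst c) = 0 := by
  funext z
  rcases z with z | z
  · exact congrFun hc z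
  · exact CharTwo.add_self_eq_zero _

theorem finrank_ker_lin (a : Rows J κ → Fin b → ZMod 2) :
    Fintype.card J ≤ finrank (ZMod 2) (LinearMap.ker (lin a)) + (κ + 1) * b := by
  have h1 := LinearMap.finrank_range_add_finrank_ker (lin a)
  have h2 : finrank (ZMod 2) (LinearMap.range (lin a)) ≤ (κ + 1) * b := by
    refine (Submodule.finrank_le _).trans (le_of_eq ?_)
    rw [Module.finrank_fintype_fun_eq_card, Fintype.card_prod, Fintype.card_fin, Fintype.card_fin]
  rw [Module.finrank_fintype_fun_eq_card] at h1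
  omega

theorem sum_hom (a : Rows J κ → Fin b → ZMod 2) (c : J → ZMod 2)
    (x : Fin (κ + 1) → Fin b → ZMod 2) :
    ∑ j, c j * hom a x j = ∑ z : Fin (κ + 1) × Fin b, lin a c z * x z.1 z.2 := by
  unfold hom pr
  simp_rw [lin_apply, Finset.mul_sum, Finset.sum_mul]
  rw [Fintype.sum_prod_type, Finset.sum_comm]
  apply Finset.sum_congr rfl
  intro i _
  rw [Finset.sum_comm]
  apply Finset.sum_congr rfl
  intro β _
  apply Finset.sum_congr rfl
  intro j _
  ring

/-- the right-hand side for which zero is a solution -/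
def tau0 : Rows J κ → ZMod 2 := fun r => if r.2 = 0 then 1 else 0

theorem sum_tau0 (j : J) : ∑ i, (tau0 : Rows J κ → ZMod 2) (j, i) = 1 := by
  show ∑ i : Fin (κ + 1), (if i = 0 then (1 : ZMod 2) else 0) = 1
  rw [Finset.sum_ite_eq' univ (0 : Fin (κ + 1)), if_pos (Finset.mem_univ _)]

theorem hom_zero (a : Rows J κ → Fin b → ZMod 2) (j : J) : hom a 0 j = 0 := by
  unfold hom pr
  apply Finset.sum_eq_zero
  intro i _
  apply Finset.sum_eq_zero
  intro β _
  exact mul_zero _

theorem hit_tau0 (a : Rows J κ → Fin b → ZMod 2) : Hit (sys a tau0) := by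
  rw [hit_iff]
  refine ⟨0, fun j => ?_⟩
  rw [eqv_eq, hom_zero, sum_tau0, zero_add]

/-- a dependency detects an unsatisfiable right-hand side -/
theorem not_hit (a : Rows J κ → Fin b → ZMod 2) (c : J → ZMod 2) (hc : lin a c = 0)
    (δ : Rows J κ → ZMod 2) (h : val δ (cst c) ≠ 0) : ¬ Hit (sys a (tau0 + δ)) := by
  rw [hit_iff]
  rintro ⟨x, hx⟩
  have h1 : ∀ j, hom a x j = ∑ i, δ (j, i) := by
    intro j
    have h2 := hx j
    rw [eqv_eq] at h2
    have h3 : ∑ i, (tau0 + δ : Rows J κ → ZMod 2) (j, i) = 1 + ∑ i, δ (j, i) := by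
      rw [← sum_tau0 (κ := κ) j, ← Finset.sum_add_distrib]
      rfl
    rw [h3] at h2
    have h4 : ∀ s t : ZMod 2, s + (1 + t) = 1 → s = t := by decide
    exact h4 _ _ h2
  apply h
  rw [val_apply, Fintype.sum_prod_type]
  have h2 : ∀ j, ∑ i : Fin (κ + 1), (cst c : Rows J κ → ZMod 2) (j, i) * δ (j, i) =
      c j * hom a x j := by
    intro j
    rw [h1, Finset.mul_sum]
    rfl
  rw [Finset.sum_congr rfl (fun j _ => h2 j), sum_hom, hc]
  apply Finset.sum_eq_zero
  intro z _
  rw [Pi.zero_apply, zero_mul]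

/-- **A dependency that is not visible.** -/
theorem exists_dep {t q L : ℕ} (h4 : 4 * t ≤ κ + 1) (a : Rows J κ → Fin b → ZMod 2)
    (N C : Submodule (ZMod 2) (Idx J κ b → ZMod 2)) (hW : (⊤ : Submodule (ZMod 2) _) ≤ N ⊔ C)
    (hC : finrank (ZMod 2) C ≤ q * L) (hJ : (κ + 1) * b + q * L < Fintype.card J) :
    ∃ c, lin a c = 0 ∧ (cst c : Rows J κ → ZMod 2) ∉
      Submodule.span (ZMod 2) (Gens a (2 * t) N) := by
  by_contra hno
  have hno' : ∀ c, lin a c = 0 → (cst c : Rows J κ → ZMod 2) ∈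
      Submodule.span (ZMod 2) (Gens a (2 * t) N) := by
    intro c hc
    by_contra h
    exact hno ⟨c, hc, h⟩
  set U := Submodule.span (ZMod 2) (Gens a (2 * t) N) with hU
  set Q : Submodule (ZMod 2) (Rows J κ → ZMod 2) := U ⊓ Inv a ⊤ with hQ
  have hcor := corank a ⊤ N C hW hC U (span_Gens_le a _ N)
  have hcol : ∀ x ∈ Inv a (⊤ : Submodule (ZMod 2) (Idx J κ b → ZMod 2)), col a x = 0 := by
    intro x hx
    funext z
    have h1 := hx (Pi.single z 1) (Submodule.mem_top)
    rwa [pr_single] at h1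
  have hrk := rank_le (⊥ : Submodule (ZMod 2) (J → ZMod 2)) (Gens a (2 * t) N) (w := 2 * t)
    (r := q * L) (fun x hx => hx.1) Q inf_le_left hcor (by
      rintro x ⟨-, hx⟩ i
      refine Fin.cases rfl (fun i => ?_) i
      rw [colm_apply, colm_apply]
      congr 1
      funext j
      have h1 : x (j, 0) + x (j, i.succ) = 0 := congrFun (hcol x hx) (Sum.inr (j, i))
      have h2 : ∀ s t : ZMod 2, s + t = 0 → t = s := by decide
      exact h2 _ _ h1)
  set D := finrank (ZMod 2) (Q.map (colm (κ := κ) (⊥ : Submodule (ZMod 2) (J → ZMod 2)) 0)) with hD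
  have h1 : finrank (ZMod 2) (LinearMap.ker (lin a)) ≤ D := by
    have h2 : (LinearMap.ker (lin a)).map (⊥ : Submodule (ZMod 2) (J → ZMod 2)).mkQ ≤
        Q.map (colm (κ := κ) (⊥ : Submodule (ZMod 2) (J → ZMod 2)) 0) := by
      rintro _ ⟨c, hc, rfl⟩
      refine ⟨cst c, ⟨hno' c hc, ?_⟩, rfl⟩
      intro g _
      rw [col_cst a c hc, pr_zero_left]
    have h3 : Function.Injective (⊥ : Submodule (ZMod 2) (J → ZMod 2)).mkQ := by
      rw [← LinearMap.ker_eq_bot, Submodule.ker_mkQ]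
    have h5 := (Submodule.equivMapOfInjective _ h3 (LinearMap.ker (lin a))).finrank_eq
    rw [h5]
    exact Submodule.finrank_mono h2
  have h2 := finrank_ker_lin a
  have h3 : q * L < D := by omega
  obtain ⟨e, he⟩ : ∃ e, κ + 1 = 2 * t + e := ⟨κ + 1 - 2 * t, by omega⟩
  have h5 : 2 * t ≤ e := by omega
  rw [he] at hrk
  have h6 : e * D ≤ 2 * t * (q * L) := by nlinarith
  rcases Nat.eq_zero_or_pos e with h0 | h0
  · omega
  · have h7 : e * (q * L) < e * D := Nat.mul_lt_mul_of_pos_left h3 h0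
    have h8 : 2 * t * (q * L) ≤ e * (q * L) := Nat.mul_le_mul_right _ h5
    omega

end dep

open Classical in
theorem exists_good {J : Type} [Fintype J] [DecidableEq J] {κ b t : ℕ} (h4 : 4 * t ≤ κ + 1)
    (ht : 1 ≤ t) (C : Finset (Idx J κ b → ZMod 2)) (hC : (κ + 1) * C.card < 2 ^ (b * (t + 1))) :
    ∃ a : Rows J κ → Fin b → ZMod 2, Good a C t := by
  by_contra hno
  have h1 := count_bad (J := J) (b := b) (w := 2 * t) (t := t) (by omega : 2 * t ≤ κ) C
  have h2 : (univ.filter fun a : Rows J κ → Fin b → ZMod 2 =>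
      ∃ x, t < wt x ∧ wt x ≤ 2 * t ∧ col a x ∈ C) = univ := by
    rw [Finset.filter_eq_self]
    intro a _
    by_contra h3
    apply hno
    refine ⟨a, fun x hx hx' hc => h3 ⟨x, hx, hx', hc⟩⟩
  rw [h2, Finset.card_univ, mul_comm] at h1
  have h3 : 0 < Fintype.card (Rows J κ → Fin b → ZMod 2) := Fintype.card_pos
  have h5 := Nat.le_of_mul_le_mul_right h1 h3
  omega

/-- **Hitting set has no small symmetric reduction to existential queries.** -/
theorem sig1_core {J : Type} [Fintype J] [DecidableEq J] {κ b t q L d : ℕ} {Λ Y : Type}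
    [Fintype Λ] [Fintype Y] [DecidableEq Y] (ht : 1 ≤ t) (h4 : 4 * t ≤ κ + 1)
    (hY : Fintype.card Y ≤ 2 ^ L) (hJ : (κ + 1) * b + q * L < Fintype.card J)
    (F : SRed (Ver (κ + 1) b × Sets J κ) (Idx J κ b) Λ Y d pS)
    (hs : (κ + 1) * (Fintype.card Y ^ d * F.size) < 2 ^ (b * (t + 1)))
    (ψ : (Λ → (Fin d → Fin q) → Bool) → Prop) :
    ¬ ∀ E, Sig1 ψ (F.out (inc E)) ↔ Hit E := by
  intro hF
  obtain ⟨a, ha⟩ := exists_good (J := J) h4 ht F.chars
    (lt_of_le_of_lt (Nat.mul_le_mul_left _ F.card_chars) hs)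
  obtain ⟨T, hT⟩ := (hF (sys a tau0)).2 (hit_tau0 a)
  obtain ⟨C, -, hC1, hC2⟩ := exists_compl (tup (Fin q) F.ρ) T (L := q * L) (by
    rw [Fintype.card_fun, Fintype.card_fin, mul_comm q L, pow_mul]
    exact Nat.pow_le_pow_left hY q) ⊤
  rw [top_inf_eq] at hC1
  obtain ⟨c, hc, hcU⟩ := exists_dep h4 a _ C hC1 hC2 hJ
  obtain ⟨φ, hφ1, hφ2⟩ := Submodule.exists_le_ker_of_notMem hcU
  set δ : Rows J κ → ZMod 2 := fun r => φ (Pi.single r 1) with hδ
  have hv : ∀ x, val δ x = φ x := val_functional φ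
  refine not_hit a c hc δ (by rw [hv]; exact hφ1) ((hF _).1 ⟨T, ?_⟩)
  have h1 : (fun (l : Λ) (φ : Fin d → Fin q) => F.out (inc (sys a (tau0 + δ))) l
      fun i => T (φ i)) = fun l φ => F.out (inc (sys a tau0)) l fun i => T (φ i) := by
    funext l φ'
    refine (local_eq F ht ha tau0 δ (St (tup (Fin q) F.ρ) T) ?_ l _ ?_).symm
    · intro x hx
      rw [hv]
      exact hφ2 (Submodule.subset_span hx)
    · intro γ hγ i
      exact congrFun ((mem_St _ _ γ).1 hγ) (φ' i)
  show ψ (fun (l : Λ) (φ : Fin d → Fin q) => F.out (inc (sys a (tau0 + δ))) l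
      fun i => T (φ i))
  rw [h1]
  exact hT

end Pool.Agent.H550R2.WH
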