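import Pool.Agent.H550R2.WH.Third

set_option autoImplicit false
set_option linter.unusedSectionVars false

/-! The second level: the main argument. -/

namespace Pool.Agent.H550R2.WH

open Finset Module Pool.Agent.H550R2.Lift Pool.Agent.H550R2.Lin

section visible

variable {J : Type} [Fintype J] [DecidableEq J] {κ b : ℕ}

theorem finrank_Ann_le (W C : Submodule (ZMod 2) (Idx J κ b → ZMod 2)) (hW : ⊤ ≤ W ⊔ C) {L : ℕ}
    (hL : finrank (ZMod 2) C ≤ L) : finrank (ZMod 2) (Ann W) ≤ L := by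
  have h1 : finrank (ZMod 2) (⊤ : Submodule (ZMod 2) (Idx J κ b → ZMod 2)) ≤
      finrank (ZMod 2) W + L :=
    (Submodule.finrank_mono hW).trans ((Submodule.finrank_add_le_finrank_add_finrank W C).trans
      (by omega))
  have h2 := finrank_Ann (le_top : W ≤ ⊤) h1
  have h3 : Ann (⊤ : Submodule (ZMod 2) (Idx J κ b → ZMod 2)) = ⊥ := by
    rw [eq_bot_iff]
    intro B hB
    rw [Submodule.mem_bot]
    funext z
    have h4 := hB (Pi.single z 1) Submodule.mem_top
    rwa [pr_comm', pr_single] at h4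
  rw [h3, finrank_bot, zero_add] at h2
  exact h2

/-- the column differences of the functionals that vanish on `W` -/
def Dif (W : Submodule (ZMod 2) (Idx J κ b → ZMod 2)) : Submodule (ZMod 2) (J → ZMod 2) :=
  LinearMap.range (∑ i : Fin κ, (LinearMap.funLeft (ZMod 2) (ZMod 2)
    fun j => (Sum.inr (j, i) : Idx J κ b)).comp ((Ann W).subtype.comp
      (LinearMap.proj i : (Fin κ → Ann W) →ₗ[ZMod 2] Ann W)))

theorem finrank_Dif (W : Submodule (ZMod 2) (Idx J κ b → ZMod 2)) {L : ℕ}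
    (hL : finrank (ZMod 2) (Ann W) ≤ L) : finrank (ZMod 2) (Dif W) ≤ κ * L := by
  refine (LinearMap.finrank_range_le _).trans ?_
  rw [Module.finrank_pi_fintype, Finset.sum_const, Finset.card_univ, Fintype.card_fin,
    smul_eq_mul]
  exact Nat.mul_le_mul_left _ hL

theorem mem_Dif (W : Submodule (ZMod 2) (Idx J κ b → ZMod 2)) (p : Idx J κ b → ZMod 2)
    (hp : p ∈ Ann W) (i : Fin κ) : (fun j => p (Sum.inr (j, i))) ∈ Dif W := by
  refine ⟨Pi.single i ⟨p, hp⟩, ?_⟩
  rw [LinearMap.sum_apply]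
  have h1 : ∀ i', i' ≠ i → ((LinearMap.funLeft (ZMod 2) (ZMod 2)
      fun j => (Sum.inr (j, i') : Idx J κ b)).comp ((Ann W).subtype.comp
      (LinearMap.proj i' : (Fin κ → Ann W) →ₗ[ZMod 2] Ann W))) (Pi.single i ⟨p, hp⟩) = 0 := by
    intro i' hne
    have h2 : (LinearMap.proj i' : (Fin κ → Ann W) →ₗ[ZMod 2] Ann W) (Pi.single i ⟨p, hp⟩) = 0 :=
      Pi.single_eq_of_ne hne _
    rw [LinearMap.comp_apply, LinearMap.comp_apply, h2, map_zero, map_zero]
  rw [Finset.sum_eq_single i (fun i' _ hne => h1 i' hne)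
    (fun h => absurd (Finset.mem_univ _) h)]
  have h2 : (LinearMap.proj i : (Fin κ → Ann W) →ₗ[ZMod 2] Ann W) (Pi.single i ⟨p, hp⟩) =
      ⟨p, hp⟩ := Pi.single_eq_same _ _
  rw [LinearMap.comp_apply, LinearMap.comp_apply, h2]
  rfl

theorem colm_eq (a : Rows J κ → Fin b → ZMod 2) (W : Submodule (ZMod 2) (Idx J κ b → ZMod 2))
    (x : Rows J κ → ZMod 2) (hx : x ∈ Inv a W) (i : Fin (κ + 1)) :
    colm (Dif W) i x = colm (Dif W) 0 x := by
  refine Fin.cases rfl (fun i => ?_) i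
  rw [colm_apply, colm_apply]
  have h1 : (fun j => col a x (Sum.inr (j, i))) ∈ Dif W :=
    mem_Dif W _ (fun g hg => by rw [pr_comm']; exact hx g hg) i
  have h2 : (fun j => x (j, i.succ)) - (fun j => x (j, 0)) =
      fun j => col a x (Sum.inr (j, i)) := by
    funext j
    show x (j, i.succ) - x (j, 0) = x (j, 0) + x (j, i.succ)
    have h3 : ∀ s t : ZMod 2, s - t = t + s := by decide
    exact h3 _ _
  rw [← h2] at h1
  exact (Submodule.Quotient.eq (Dif W)).2 h1

/-- **The second quantifier sees few constant combinations.** -/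
theorem dim_seen {t D r : ℕ} (h4 : 2 * t ≤ κ) (hD : 2 * t * r ≤ (κ + 1 - 2 * t) * D)
    (a : Rows J κ → Fin b → ZMod 2) (W N C : Submodule (ZMod 2) (Idx J κ b → ZMod 2))
    (hW : W ≤ N ⊔ C) (hC : finrank (ZMod 2) C ≤ r) :
    finrank (ZMod 2) ((Submodule.span (ZMod 2) (Gens a (2 * t) N) ⊓ Inv a W).map
      (colm (Dif W) 0)) ≤ D := by
  set U := Submodule.span (ZMod 2) (Gens a (2 * t) N) with hU
  have hcor := corank a W N C hW hC U (span_Gens_le a _ N)
  have hrk := rank_le (Dif W) (Gens a (2 * t) N) (w := 2 * t) (r := r) (fun x hx => hx.1)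
    (U ⊓ Inv a W) inf_le_left hcor (fun x hx i => colm_eq a W x hx.2 i)
  set D' := finrank (ZMod 2) ((U ⊓ Inv a W).map (colm (Dif W) 0)) with hD'
  obtain ⟨e, he⟩ : ∃ e, κ + 1 = 2 * t + e := ⟨κ + 1 - 2 * t, by omega⟩
  have he' : κ + 1 - 2 * t = e := by omega
  have he0 : 0 < e := by omega
  rw [he'] at hD
  rw [he] at hrk
  have h6 : e * D' ≤ e * D := by nlinarith
  exact Nat.le_of_mul_le_mul_left h6 he0

theorem finrank_sup_le (P Z : Submodule (ZMod 2) (J → ZMod 2)) {D : ℕ}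
    (h : finrank (ZMod 2) (Z.map P.mkQ) ≤ D) :
    finrank (ZMod 2) (P ⊔ Z : Submodule (ZMod 2) (J → ZMod 2)) ≤ finrank (ZMod 2) P + D := by
  have h1 := finrank_map_inf P.mkQ (P ⊔ Z)
  rw [Submodule.ker_mkQ, Submodule.map_sup, Submodule.mkQ_map_self, bot_sup_eq] at h1
  have h2 : finrank (ZMod 2) ((P ⊔ Z) ⊓ P : Submodule (ZMod 2) (J → ZMod 2)) ≤
      finrank (ZMod 2) P := Submodule.finrank_mono inf_le_right
  omega

end visible

section main

variable {J1 M N : Type} [Fintype J1] [DecidableEq J1] [Fintype M] [DecidableEq M]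
  [Fintype N] [DecidableEq N] {κ b t q u L D n d : ℕ} {Λ Y : Type} [Fintype Λ] [Fintype Y]
  [DecidableEq Y]

/-- the tuple is a witness for the right-hand side given by `B` -/
def Wit (F : SRed (Ver (κ + 1) b × Sets (J1 ⊕ M × N) κ) (Idx (J1 ⊕ M × N) κ b) Λ Y d pS)
    (ψ : (Λ → (Fin d → Fin q ⊕ Fin u) → Bool) → Prop)
    (a : Rows (J1 ⊕ M × N) κ → Fin b → ZMod 2) (T : Fin q → Y) (B : M × N → ZMod 2) : Prop :=
  ∀ S : Fin u → Y, ψ fun l φ => F.out (inc (sys a (tauB B))) l fun i => Sum.elim T S (φ i)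

open Classical in
/-- **One tuple is a witness for few right-hand sides.** -/
theorem wit_count (h4 : 2 * t ≤ κ) (ht : 1 ≤ t) (hY : Fintype.card Y ≤ 2 ^ L)
    (hD : 2 * t * (u * L) ≤ (κ + 1 - 2 * t) * D)
    (hn : κ * (q * L) + n * D < Fintype.card M)
    (F : SRed (Ver (κ + 1) b × Sets (J1 ⊕ M × N) κ) (Idx (J1 ⊕ M × N) κ b) Λ Y d pS)
    (hF : F.Equivariant) (ψ : (Λ → (Fin d → Fin q ⊕ Fin u) → Bool) → Prop)
    (a : Rows (J1 ⊕ M × N) κ → Fin b → ZMod 2) (ha : Good a F.chars t) (T : Fin q → Y)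
    (hT : ∀ B, Wit F ψ a T B → ∀ j, ∃ l, B (j, l) ≠ 0) :
    ((univ.filter fun B : M × N → ZMod 2 => Wit F ψ a T B).card : ℝ) ≤
      (1 - (1 / 2) ^ D) ^ n * 2 ^ (Fintype.card M * Fintype.card N) := by
  have hcq : Fintype.card (Fin q → Y) ≤ 2 ^ (q * L) := by
    rw [Fintype.card_fun, Fintype.card_fin, mul_comm q L, pow_mul]
    exact Nat.pow_le_pow_left hY q
  have hcu : Fintype.card (Fin u → Y) ≤ 2 ^ (u * L) := by
    rw [Fintype.card_fun, Fintype.card_fin, mul_comm u L, pow_mul]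
    exact Nat.pow_le_pow_left hY u
  set W := St (tup (Fin q) F.ρ) T with hW
  obtain ⟨C0, -, hC01, hC02⟩ := exists_compl (tup (Fin q) F.ρ) T hcq ⊤
  rw [top_inf_eq] at hC01
  have hAnn : finrank (ZMod 2) (Ann W) ≤ q * L := finrank_Ann_le W C0 hC01 hC02
  have hDif : finrank (ZMod 2) (Dif W) ≤ κ * (q * L) := finrank_Dif W hAnn
  have hP : finrank (ZMod 2) ((Dif W).map res) ≤ κ * (q * L) :=
    (Submodule.finrank_map_le _ _).trans hDif
  refine tree_final _ ((Dif W).map res) D n ?_ (by omega)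
  intro y hy
  have hny : ¬ Wit F ψ a T y := by
    intro hw
    obtain ⟨j, hj⟩ := hy
    obtain ⟨l, hl⟩ := hT y hw j
    exact hl (hj l)
  obtain ⟨S, hS⟩ : ∃ S : Fin u → Y, ¬ ψ fun l φ => F.out (inc (sys a (tauB y))) l
      fun i => Sum.elim T S (φ i) := by
    by_contra hno
    apply hny
    intro S
    by_contra hS
    exact hno ⟨S, hS⟩
  set Nn := W ⊓ St (tup (Fin u) F.ρ) S with hNn
  obtain ⟨C, -, hC1, hC2⟩ := exists_compl (tup (Fin u) F.ρ) S hcu W
  set U := Submodule.span (ZMod 2) (Gens a (2 * t) Nn) with hU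
  have hseen := dim_seen h4 hD a W Nn C hC1 hC2
  refine ⟨((U ⊓ Inv a W).map col0).map res, ?_, ?_⟩
  · have h1 : (U ⊓ Inv a W).map (colm (Dif W) 0) = ((U ⊓ Inv a W).map col0).map (Dif W).mkQ := by
      rw [← Submodule.map_comp]
      rfl
    rw [← hU, h1] at hseen
    have h2 := finrank_sup_le (Dif W) ((U ⊓ Inv a W).map col0) hseen
    rw [← Submodule.map_sup]
    exact finrank_map_le_add res le_sup_left h2
  · intro B hB hcls
    have hwB : Wit F ψ a T B := (Finset.mem_filter.1 hB).2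
    rw [mem_cls] at hcls
    set δ : Rows (J1 ⊕ M × N) κ → ZMod 2 := difB (y + B) with hδ
    have hval : ∀ x ∈ U ⊓ Inv a W, val δ x = 0 := by
      intro x hx
      rw [hδ, val_difB]
      have h1 := hcls (res (col0 x)) ⟨col0 x, ⟨x, hx, rfl⟩, rfl⟩
      rwa [add_comm B y] at h1
    obtain ⟨g, hg, hgU⟩ := exists_g a U W δ hval
    have hgT : ∀ i, F.ρ (Multiplicative.ofAdd g) (T i) = T i := fun i =>
      congrFun ((mem_St _ _ g).1 hg) i
    have hδ' : ∀ x ∈ U, val (δ + phi a g) x = 0 := by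
      intro x hx
      have h1 : val (δ + phi a g) x = val δ x + ∑ r, x r * phi a g r := by
        rw [val_apply, val_apply, ← Finset.sum_add_distrib]
        apply Finset.sum_congr rfl
        intro r _
        rw [Pi.add_apply, mul_add]
      rw [h1, ← pr_col, ← hgU x hx]
      exact CharTwo.add_self_eq_zero _
    apply hS
    have hinv : ∀ z : Y, F.ρ (Multiplicative.ofAdd g) (F.ρ (Multiplicative.ofAdd g) z) = z := by
      intro z
      rw [← Equiv.Perm.mul_apply, ← map_mul, ← ofAdd_add, add_self', ofAdd_zero, map_one]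
      rfl
    have key : (fun (l : Λ) (φ : Fin d → Fin q ⊕ Fin u) => F.out (inc (sys a (tauB y))) l
        fun i => Sum.elim T S (φ i)) = fun l φ => F.out (inc (sys a (tauB B))) l
        fun i => Sum.elim T (fun j => F.ρ (Multiplicative.ofAdd g) (S j)) (φ i) := by
      funext l φ
      have h1 := local_eq F ht ha (tauB y) (δ + phi a g) Nn (fun x hx =>
        hδ' x (Submodule.subset_span hx)) l (fun i => Sum.elim T S (φ i)) (by
          intro γ hγ i
          generalize φ i = z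
          rcases z with z | z
          · exact congrFun ((mem_St _ _ γ).1 hγ.1) z
          · exact congrFun ((mem_St _ _ γ).1 hγ.2) z)
      rw [h1]
      have h2 : tauB y + (δ + phi a g) = tauB B + phi a g := by
        rw [← add_assoc, hδ, tauB_add]
      rw [h2]
      have h3 := out_shift F hF a (tauB B) g l
        (fun i => Sum.elim T (fun j => F.ρ (Multiplicative.ofAdd g) (S j)) (φ i))
      rw [← h3]
      congr 1
      funext i
      generalize φ i = z
      rcases z with z | z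
      · exact (hgT z).symm
      · exact (hinv (S z)).symm
    rw [key]
    exact hwB _

open Classical in
theorem card_nonzero : (2 ^ Fintype.card N - 1) ^ Fintype.card M ≤
    (univ.filter fun B : M × N → ZMod 2 => ∀ j, ∃ l, B (j, l) ≠ 0).card := by
  have h1 : Fintype.card (M → {v : N → ZMod 2 // ¬ v = 0}) =
      (2 ^ Fintype.card N - 1) ^ Fintype.card M := by
    rw [Fintype.card_fun, Fintype.card_subtype_compl, Fintype.card_subtype_eq, Fintype.card_fun,
      ZMod.card]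
  rw [← h1, ← Finset.card_univ]
  apply Finset.card_le_card_of_injOn (fun c m => (c m.1).1 m.2)
  · intro c _
    apply Finset.mem_coe.2
    refine Finset.mem_filter.2 ⟨Finset.mem_univ _, fun j => ?_⟩
    exact Function.ne_iff.1 (c j).2
  · intro c _ c' _ h
    funext j
    apply Subtype.ext
    funext l
    exact congrFun h (j, l)

/-- **The second level.** -/
theorem sig2_core (h4 : 2 * t ≤ κ) (ht : 1 ≤ t) (hY : Fintype.card Y ≤ 2 ^ L)
    (hD : 2 * t * (u * L) ≤ (κ + 1 - 2 * t) * D)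
    (hn : κ * (q * L) + n * D < Fintype.card M)
    (hJ : b * (κ + 1) + 2 ≤ Fintype.card J1)
    (F : SRed (Ver (κ + 1) b × Sets (J1 ⊕ M × N) κ) (Idx (J1 ⊕ M × N) κ b) Λ Y d pS)
    (hs : 4 * ((κ + 1) * (Fintype.card Y ^ d * F.size)) ≤ 2 ^ (b * (t + 1)))
    (hF : F.Equivariant) (ψ : (Λ → (Fin d → Fin q ⊕ Fin u) → Bool) → Prop)
    (hok : ∀ E, Sig2 ψ (F.out (inc E)) ↔ Third E) :
    (((2 ^ Fintype.card N - 1) ^ Fintype.card M : ℕ) : ℝ) ≤ 2 ^ (q * L) *
      ((1 - (1 / 2) ^ D) ^ n * 2 ^ (Fintype.card M * Fintype.card N)) := by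
  classical
  obtain ⟨a, ha, hfull⟩ := exists_good_full (J1 := J1) (J2 := M × N) h4 F.chars
    (le_trans (Nat.mul_le_mul_left _ (Nat.mul_le_mul_left _ F.card_chars)) hs) hJ
  have hsub : (univ.filter fun B : M × N → ZMod 2 => ∀ j, ∃ l, B (j, l) ≠ 0) ⊆
      (univ : Finset (Fin q → Y)).biUnion fun T =>
        univ.filter fun B : M × N → ZMod 2 => Wit F ψ a T B := by
    intro B hB
    have h1 := (Finset.mem_filter.1 hB).2
    obtain ⟨T, hT⟩ := (hok (sys a (tauB B))).2 ((third_tauB a hfull B).2 h1)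
    exact Finset.mem_biUnion.2 ⟨T, Finset.mem_univ _,
      Finset.mem_filter.2 ⟨Finset.mem_univ _, hT⟩⟩
  have h1 : (((2 ^ Fintype.card N - 1) ^ Fintype.card M : ℕ) : ℝ) ≤
      ∑ T : Fin q → Y, ((univ.filter fun B : M × N → ZMod 2 => Wit F ψ a T B).card : ℝ) := by
    exact_mod_cast card_nonzero.trans ((Finset.card_le_card hsub).trans Finset.card_biUnion_le)
  refine h1.trans ?_
  have h2 : ∀ T : Fin q → Y, ((univ.filter fun B : M × N → ZMod 2 => Wit F ψ a T B).card : ℝ) ≤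
      (1 - (1 / 2) ^ D) ^ n * 2 ^ (Fintype.card M * Fintype.card N) := by
    intro T
    apply wit_count h4 ht hY hD hn F hF ψ a ha T
    intro B hB
    exact (third_tauB a hfull B).1 ((hok _).1 ⟨T, hB⟩)
  refine (Finset.sum_le_sum fun T _ => h2 T).trans ?_
  rw [Finset.sum_const, nsmul_eq_mul, Finset.card_univ, Fintype.card_fun, Fintype.card_fin]
  have h0 : (0 : ℝ) ≤ (1 - (1 / 2) ^ D) ^ n * 2 ^ (Fintype.card M * Fintype.card N) := by
    have : ((1 : ℝ) / 2) ^ D ≤ 1 := pow_le_one₀ (by norm_num) (by norm_num)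
    have h3 : (0 : ℝ) ≤ 1 - (1 / 2) ^ D := by linarith
    positivity
  apply mul_le_mul_of_nonneg_right _ h0
  rw [mul_comm q L, pow_mul]
  have h3 : Fintype.card Y ^ q ≤ (2 ^ L) ^ q := Nat.pow_le_pow_left hY q
  exact_mod_cast h3

end main

end Pool.Agent.H550R2.WH
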