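import Pool.Agent.H550R2.WH.Defs
import Pool.Agent.H550R2.LP.Cliq

set_option autoImplicit false
set_option linter.unusedSectionVars false

/-! Set systems given by linear equations in which every block occurs. -/

namespace Pool.Agent.H550R2.WH

open Finset Pool.Agent.H550R2.Lift Pool.Agent.H550R2.Lin

section ext

variable {κ : ℕ}

/-- the even vector with given last coordinates -/
def ext (s : Fin κ → ZMod 2) : Fin (κ + 1) → ZMod 2 := Fin.cons (∑ i, s i) s

theorem ext_zero_apply (s : Fin κ → ZMod 2) : ext s 0 = ∑ i, s i := rfl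

theorem ext_succ (s : Fin κ → ZMod 2) (i : Fin κ) : ext s i.succ = s i := rfl

theorem ext_add (s s' : Fin κ → ZMod 2) : ext (s + s') = ext s + ext s' := by
  funext i
  refine Fin.cases ?_ (fun i => ?_) i
  · show ∑ i, (s i + s' i) = (∑ i, s i) + ∑ i, s' i
    rw [Finset.sum_add_distrib]
  · rfl

theorem sum_ext (s : Fin κ → ZMod 2) : ∑ i, ext s i = 0 := by
  rw [Fin.sum_univ_succ, ext_zero_apply]
  exact CharTwo.add_self_eq_zero _

theorem eq_ext {z : Fin (κ + 1) → ZMod 2} (hz : ∑ i, z i = 0) : z = ext fun i => z i.succ := by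
  funext i
  refine Fin.cases ?_ (fun i => ?_) i
  · rw [ext_zero_apply]
    rw [Fin.sum_univ_succ] at hz
    have h3 : ∀ s t : ZMod 2, s + t = 0 → s = t := by decide
    exact h3 _ _ hz
  · rfl

end ext

variable {J : Type} [Fintype J] [DecidableEq J] {κ b : ℕ}

/-- the coordinates of the combinations -/
abbrev Rows (J : Type) (κ : ℕ) : Type := J × Fin (κ + 1)

/-- the effect of a translation on the right-hand side -/
def phi (a : Rows J κ → Fin b → ZMod 2) (y : Idx J κ b → ZMod 2) : Rows J κ → ZMod 2 := fun r =>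
  pr (a r) (fun β => y (Sum.inl (r.2, β))) + ext (fun i => y (Sum.inr (r.1, i))) r.2

theorem phi_add (a : Rows J κ → Fin b → ZMod 2) (y y' : Idx J κ b → ZMod 2) :
    phi a (y + y') = phi a y + phi a y' := by
  funext r
  have h1 : (fun i => (y + y') (Sum.inr (r.1, i))) =
      (fun i => y (Sum.inr (r.1, i))) + fun i => y' (Sum.inr (r.1, i)) := rfl
  have h2 : (fun β => (y + y') (Sum.inl (r.2, β))) =
      (fun β => y (Sum.inl (r.2, β))) + fun β => y' (Sum.inl (r.2, β)) := rfl
  show pr (a r) (fun β => (y + y') (Sum.inl (r.2, β))) +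
    ext (fun i => (y + y') (Sum.inr (r.1, i))) r.2 = _
  rw [h1, h2, pr_add_right, ext_add, Pi.add_apply]
  show _ = (pr (a r) (fun β => y (Sum.inl (r.2, β))) + ext (fun i => y (Sum.inr (r.1, i))) r.2) +
    (pr (a r) (fun β => y' (Sum.inl (r.2, β))) + ext (fun i => y' (Sum.inr (r.1, i))) r.2)
  ring

/-- the set system with coefficients `a` and right-hand side `τ` -/
def sys (a : Rows J κ → Fin b → ZMod 2) (τ : Rows J κ → ZMod 2) (u : Ver (κ + 1) b)
    (s : Sets J κ) : Prop := pr (a (s.1, u.1)) u.2 + ext s.2 u.1 + τ (s.1, u.1) = 1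

theorem trS_apply (y : J × Fin κ → ZMod 2) (s : Sets J κ) :
    trS y s = (s.1, s.2 + fun i => y (s.1, i)) := rfl

theorem trS_symm (y : J × Fin κ → ZMod 2) (s : Sets J κ) :
    (trS y).symm s = (s.1, s.2 + fun i => y (s.1, i)) := by
  rw [Equiv.symm_apply_eq, trS_apply]
  apply Prod.ext
  · rfl
  · funext i
    show s.2 i = s.2 i + y (s.1, i) + y (s.1, i)
    rw [add_assoc, CharTwo.add_self_eq_zero, add_zero]

theorem trS_add (y y' : J × Fin κ → ZMod 2) : trS (y + y') = trS y * trS y' := by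
  apply Equiv.ext
  intro s
  rw [Equiv.Perm.mul_apply, trS_apply, trS_apply, trS_apply]
  apply Prod.ext
  · rfl
  · funext i
    show s.2 i + (y (s.1, i) + y' (s.1, i)) = s.2 i + y' (s.1, i) + y (s.1, i)
    ring

theorem pS_add (y y' : Idx J κ b → ZMod 2) : pS (y + y') = pS y * pS y' := by
  unfold pS
  have h1 : (fun z => (y + y') (Sum.inl z)) = (fun z => y (Sum.inl z)) + fun z => y' (Sum.inl z) :=
    rfl
  have h2 : (fun z => (y + y') (Sum.inr z)) = (fun z => y (Sum.inr z)) + fun z => y' (Sum.inr z) :=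
    rfl
  rw [h1, h2, trV_add, trS_add]
  rfl

/-- **A translation changes the right-hand side.** -/
theorem sys_shift (a : Rows J κ → Fin b → ZMod 2) (τ : Rows J κ → ZMod 2)
    (y : Idx J κ b → ZMod 2) (u : Ver (κ + 1) b) (s : Sets J κ) :
    sys a τ ((trV fun z => y (Sum.inl z)).symm u) ((trS fun z => y (Sum.inr z)).symm s) ↔
      sys a (τ + phi a y) u s := by
  rw [trV_symm, trS_symm]
  show pr (a (s.1, u.1)) (u.2 + fun κ' => y (Sum.inl (u.1, κ'))) +
    ext (s.2 + fun i => y (Sum.inr (s.1, i))) u.1 + τ (s.1, u.1) = 1 ↔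
    pr (a (s.1, u.1)) u.2 + ext s.2 u.1 + (τ (s.1, u.1) +
      (pr (a (s.1, u.1)) (fun β => y (Sum.inl (u.1, β))) +
        ext (fun i => y (Sum.inr (s.1, i))) u.1)) = 1
  rw [pr_add_right, ext_add, Pi.add_apply]
  apply Eq.congr_left
  ring

theorem inc_shift (a : Rows J κ → Fin b → ZMod 2) (τ : Rows J κ → ZMod 2)
    (y : Idx J κ b → ZMod 2) :
    (fun z => inc (sys a τ) ((pS y).symm z)) = inc (sys a (τ + phi a y)) := by
  classical
  funext z
  have h := sys_shift a τ y z.1 z.2
  show (if sys a τ ((trV fun z => y (Sum.inl z)).symm z.1)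
    ((trS fun z => y (Sum.inr z)).symm z.2) then (1 : ℝ) else 0) =
    if sys a (τ + phi a y) z.1 z.2 then 1 else 0
  by_cases h1 : sys a (τ + phi a y) z.1 z.2
  · rw [if_pos h1, if_pos (h.2 h1)]
  · rw [if_neg h1, if_neg (fun h2 => h1 (h.1 h2))]

/-- a combination as a functional on the translations -/
def col (a : Rows J κ → Fin b → ZMod 2) : (Rows J κ → ZMod 2) →+ (Idx J κ b → ZMod 2) where
  toFun x := Sum.elim (fun z => ∑ j, x (j, z.1) * a (j, z.1) z.2)
    fun z => x (z.1, 0) + x (z.1, z.2.succ)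
  map_zero' := by
    funext z
    rcases z with z | z
    · exact Finset.sum_eq_zero fun j _ => zero_mul _
    · exact add_zero _
  map_add' := fun x x' => by
    funext z
    rcases z with z | z
    · show ∑ j, (x (j, z.1) + x' (j, z.1)) * a (j, z.1) z.2 =
        (∑ j, x (j, z.1) * a (j, z.1) z.2) + ∑ j, x' (j, z.1) * a (j, z.1) z.2
      rw [← Finset.sum_add_distrib]
      apply Finset.sum_congr rfl
      intro j _
      ring
    · show x (z.1, 0) + x' (z.1, 0) + (x (z.1, z.2.succ) + x' (z.1, z.2.succ)) =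
        x (z.1, 0) + x (z.1, z.2.succ) + (x' (z.1, 0) + x' (z.1, z.2.succ))
      ring

theorem col_inl (a : Rows J κ → Fin b → ZMod 2) (x : Rows J κ → ZMod 2)
    (z : Fin (κ + 1) × Fin b) : col a x (Sum.inl z) = ∑ j, x (j, z.1) * a (j, z.1) z.2 := rfl

theorem col_inr (a : Rows J κ → Fin b → ZMod 2) (x : Rows J κ → ZMod 2) (z : J × Fin κ) :
    col a x (Sum.inr z) = x (z.1, 0) + x (z.1, z.2.succ) := rfl

theorem pr_col (a : Rows J κ → Fin b → ZMod 2) (x : Rows J κ → ZMod 2)
    (y : Idx J κ b → ZMod 2) : pr (col a x) y = ∑ r, x r * phi a y r := by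
  have h1 : pr (col a x) y = (∑ z : Fin (κ + 1) × Fin b,
      (∑ j, x (j, z.1) * a (j, z.1) z.2) * y (Sum.inl z)) +
      ∑ z : J × Fin κ, (x (z.1, 0) + x (z.1, z.2.succ)) * y (Sum.inr z) := by
    unfold pr
    rw [Fintype.sum_sum_type]
    rfl
  have h2 : ∑ r, x r * phi a y r = (∑ r : Rows J κ, x r * pr (a r)
      (fun β => y (Sum.inl (r.2, β)))) +
      ∑ r : Rows J κ, x r * ext (fun i => y (Sum.inr (r.1, i))) r.2 := by
    rw [← Finset.sum_add_distrib]
    apply Finset.sum_congr rfl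
    intro r _
    unfold phi
    ring
  rw [h1, h2]
  congr 1
  · rw [Fintype.sum_prod_type, Fintype.sum_prod_type_right]
    apply Finset.sum_congr rfl
    intro i _
    unfold pr
    simp_rw [Finset.sum_mul, Finset.mul_sum]
    rw [Finset.sum_comm]
    apply Finset.sum_congr rfl
    intro j _
    apply Finset.sum_congr rfl
    intro β _
    ring
  · rw [Fintype.sum_prod_type, Fintype.sum_prod_type]
    apply Finset.sum_congr rfl
    intro j _
    rw [Fin.sum_univ_succ, ext_zero_apply, Finset.mul_sum, ← Finset.sum_add_distrib]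
    apply Finset.sum_congr rfl
    intro i _
    rw [ext_succ]
    ring

/-- the number of columns touched by a combination -/
def wt (x : Rows J κ → ZMod 2) : ℕ := (univ.filter fun i : Fin (κ + 1) => ∃ j, x (j, i) ≠ 0).card

theorem wt_add (x y : Rows J κ → ZMod 2) : wt (x + y) ≤ wt x + wt y := by
  unfold wt
  refine le_trans (Finset.card_le_card ?_) (Finset.card_union_le _ _)
  intro i hi
  rw [Finset.mem_union, Finset.mem_filter, Finset.mem_filter]
  obtain ⟨j, hj⟩ := (Finset.mem_filter.1 hi).2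
  by_cases h : x (j, i) = 0
  · right
    refine ⟨Finset.mem_univ _, j, fun h' => hj ?_⟩
    rw [Pi.add_apply, h, h', add_zero]
  · exact Or.inl ⟨Finset.mem_univ _, j, h⟩

theorem wt_zero : wt (0 : Rows J κ → ZMod 2) = 0 := by
  unfold wt
  rw [Finset.card_eq_zero, Finset.filter_eq_empty_iff]
  rintro i _ ⟨j, hj⟩
  exact hj rfl

theorem wt_single (r : Rows J κ) : wt (Pi.single r (1 : ZMod 2)) ≤ 1 := by
  unfold wt
  have h1 : (univ.filter fun i : Fin (κ + 1) => ∃ j, (Pi.single r (1 : ZMod 2) : Rows J κ → ZMod 2)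
      (j, i) ≠ 0) ⊆ {r.2} := by
    intro i hi
    obtain ⟨j, hj⟩ := (Finset.mem_filter.1 hi).2
    rw [Finset.mem_singleton]
    by_contra hne
    apply hj
    apply Pi.single_eq_of_ne
    intro h
    exact hne (congrArg Prod.snd h)
  exact (Finset.card_le_card h1).trans (le_of_eq (Finset.card_singleton _))

/-- the value of a combination on a right-hand side -/
def val (δ : Rows J κ → ZMod 2) : (Rows J κ → ZMod 2) →+ ZMod 2 where
  toFun x := ∑ r, x r * δ r
  map_zero' := Finset.sum_eq_zero (fun r _ => by rw [Pi.zero_apply, zero_mul])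
  map_add' := fun x y => by
    rw [← Finset.sum_add_distrib]
    apply Finset.sum_congr rfl
    intro r _
    rw [Pi.add_apply, add_mul]

theorem val_apply (δ x : Rows J κ → ZMod 2) : val δ x = ∑ r, x r * δ r := rfl

theorem sum_single_mul (r : Rows J κ) (z : Rows J κ → ZMod 2) :
    ∑ r', (Pi.single r (1 : ZMod 2) : Rows J κ → ZMod 2) r' * z r' = z r := by
  rw [Finset.sum_eq_single r]
  · rw [Pi.single_eq_same, one_mul]
  · intro r' _ hne
    rw [Pi.single_eq_of_ne hne, zero_mul]
  · intro h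
    exact absurd (Finset.mem_univ _) h

theorem ite_sg (z : ZMod 2) : (if z = 1 then (1 : ℝ) else 0) = 1 / 2 - 1 / 2 * sg z := by
  rcases zmod2_cases z with rfl | rfl
  · rw [if_neg (by decide), sg_zero]
    norm_num
  · rw [if_pos rfl, sg_one]
    norm_num

theorem inc_sys (a : Rows J κ → Fin b → ZMod 2) (τ : Rows J κ → ZMod 2) (u : Ver (κ + 1) b)
    (s : Sets J κ) : inc (sys a τ) (u, s) =
      1 / 2 - 1 / 2 * sg (pr (a (s.1, u.1)) u.2 + ext s.2 u.1 + τ (s.1, u.1)) := by
  classical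
  rw [← ite_sg]
  by_cases h : sys a τ u s
  · have h' : pr (a (s.1, u.1)) u.2 + ext s.2 u.1 + τ (s.1, u.1) = 1 := h
    rw [if_pos h']
    exact if_pos h
  · have h' : ¬ pr (a (s.1, u.1)) u.2 + ext s.2 u.1 + τ (s.1, u.1) = 1 := h
    rw [if_neg h']
    exact if_neg h

/-- **The set systems of two right-hand sides are linked.** -/
theorem sys_linked (a : Rows J κ → Fin b → ZMod 2) (τ δ : Rows J κ → ZMod 2) {t : ℕ}
    (ht : 1 ≤ t) :
    Linked pS (col a) (val δ) wt t (inc (sys a τ)) (inc (sys a (τ + δ))) := by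
  classical
  refine ⟨?_⟩
  rintro ⟨u, s⟩
  have key : ∀ (τ : Rows J κ → ZMod 2) (y : Idx J κ b → ZMod 2),
      inc (sys a τ) ((pS y).symm (u, s)) =
        1 / 2 - 1 / 2 * (sg (pr (a (s.1, u.1)) u.2 + ext s.2 u.1 + τ (s.1, u.1)) *
          sg (pr (col a (Pi.single (s.1, u.1) 1)) y)) := by
    intro τ y
    have h1 := congrFun (inc_shift a τ y) (u, s)
    rw [pr_col, sum_single_mul, ← sg_add]
    refine h1.trans ?_
    rw [inc_sys, Pi.add_apply, add_assoc (pr (a (s.1, u.1)) u.2 + ext s.2 u.1)]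
  refine ⟨Bool, inferInstance, fun c => if c = true then -(1 / 2) *
    sg (pr (a (s.1, u.1)) u.2 + ext s.2 u.1 + τ (s.1, u.1)) else 1 / 2,
    fun c => if c = true then Pi.single (s.1, u.1) 1 else 0, ?_, ?_, ?_⟩
  · intro c
    cases c
    · show wt (0 : Rows J κ → ZMod 2) ≤ t
      rw [wt_zero]
      exact Nat.zero_le _
    · exact (wt_single _).trans ht
  · intro y
    rw [Fintype.sum_bool, key]
    show _ = -(1 / 2) * sg (pr (a (s.1, u.1)) u.2 + ext s.2 u.1 + τ (s.1, u.1)) *
      sg (pr (col a (Pi.single (s.1, u.1) 1)) y) + 1 / 2 * sg (pr (col a 0) y)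
    rw [map_zero, pr_zero_left, sg_zero]
    ring
  · intro y
    rw [Fintype.sum_bool, key]
    show _ = -(1 / 2) * sg (pr (a (s.1, u.1)) u.2 + ext s.2 u.1 + τ (s.1, u.1)) *
      sg (val δ (Pi.single (s.1, u.1) 1)) *
      sg (pr (col a (Pi.single (s.1, u.1) 1)) y) + 1 / 2 * sg (val δ 0) * sg (pr (col a 0) y)
    rw [map_zero, map_zero, pr_zero_left, sg_zero, val_apply, sum_single_mul]
    have h2 : sg (pr (a (s.1, u.1)) u.2 + ext s.2 u.1 + (τ + δ) (s.1, u.1)) =
        sg (pr (a (s.1, u.1)) u.2 + ext s.2 u.1 + τ (s.1, u.1)) * sg (δ (s.1, u.1)) := by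
      rw [← sg_add, Pi.add_apply, ← add_assoc]
    rw [h2]
    ring

section sem

/-- the value of the equation `j` -/
def eqv (a : Rows J κ → Fin b → ZMod 2) (τ : Rows J κ → ZMod 2)
    (x : Fin (κ + 1) → Fin b → ZMod 2) (j : J) : ZMod 2 :=
  ∑ i, (pr (a (j, i)) (x i) + τ (j, i))

theorem all_hit (a : Rows J κ → Fin b → ZMod 2) (τ : Rows J κ → ZMod 2)
    (x : Fin (κ + 1) → Fin b → ZMod 2) (j : J) :
    (∀ σ, ∃ i, sys a τ (i, x i) (j, σ)) ↔ eqv a τ x j = 1 := by
  have h3 : ∀ s t : ZMod 2, s + t ≠ 1 → s = t := by decide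
  constructor
  · intro h
    rcases zmod2_cases (eqv a τ x j) with h0 | h0
    · exfalso
      obtain ⟨i, hi⟩ := h fun i => (fun i => pr (a (j, i)) (x i) + τ (j, i)) i.succ
      have h1 := congrFun (eq_ext (z := fun i => pr (a (j, i)) (x i) + τ (j, i)) h0) i
      have h2 : pr (a (j, i)) (x i) +
        ext (fun i => (fun i => pr (a (j, i)) (x i) + τ (j, i)) i.succ) i + τ (j, i) = 1 := hi
      rw [← h1] at h2
      have h4 : pr (a (j, i)) (x i) + (pr (a (j, i)) (x i) + τ (j, i)) + τ (j, i) = 0 := by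
        have e1 := CharTwo.add_self_eq_zero (pr (a (j, i)) (x i))
        have e2 := CharTwo.add_self_eq_zero (τ (j, i))
        linear_combination e1 + e2
      rw [h4] at h2
      exact absurd h2 (by decide)
    · exact h0
  · intro h σ
    by_contra hno
    have h1 : ∀ i, pr (a (j, i)) (x i) + τ (j, i) = ext σ i := by
      intro i
      have h2 : ¬ (pr (a (j, i)) (x i) + ext σ i + τ (j, i) = 1) := fun h2 => hno ⟨i, h2⟩
      apply h3
      intro h4
      apply h2
      rw [← h4]
      ring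
    have h2 : eqv a τ x j = 0 := by
      unfold eqv
      rw [Finset.sum_congr rfl (fun i _ => h1 i), sum_ext]
    rw [h2] at h
    exact absurd h (by decide)

theorem some_miss (a : Rows J κ → Fin b → ZMod 2) (τ : Rows J κ → ZMod 2)
    (x : Fin (κ + 1) → Fin b → ZMod 2) (j : J) :
    (∃ σ, ∀ i, ¬ sys a τ (i, x i) (j, σ)) ↔ eqv a τ x j = 0 := by
  have h1 := all_hit a τ x j
  constructor
  · rintro ⟨σ, hσ⟩
    rcases zmod2_cases (eqv a τ x j) with h0 | h0
    · exact h0
    · obtain ⟨i, hi⟩ := h1.2 h0 σ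
      exact absurd hi (hσ i)
  · intro h
    by_contra hno
    have h2 : eqv a τ x j = 1 := by
      rw [← h1]
      intro σ
      by_contra h3
      exact hno ⟨σ, fun i hi => h3 ⟨i, hi⟩⟩
    rw [h] at h2
    exact absurd h2 (by decide)

theorem hit_iff (a : Rows J κ → Fin b → ZMod 2) (τ : Rows J κ → ZMod 2) :
    Hit (sys a τ) ↔ ∃ x, ∀ j, eqv a τ x j = 1 := by
  unfold Hit
  apply exists_congr
  intro x
  constructor
  · intro h j
    rw [← all_hit]
    exact fun σ => h (j, σ)
  · rintro h ⟨j, σ⟩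
    exact (all_hit a τ x j).2 (h j) σ

end sem

theorem third_iff {J1 M N : Type} {κ b : ℕ} [Fintype J1] [Fintype M] [Fintype N]
    [DecidableEq J1] [DecidableEq M] [DecidableEq N]
    (a : Rows (J1 ⊕ M × N) κ → Fin b → ZMod 2) (τ : Rows (J1 ⊕ M × N) κ → ZMod 2) :
    Third (sys a τ) ↔ ∃ x, (∀ j, eqv a τ x (Sum.inl j) = 1) ∧
      ∀ j, ∃ l, eqv a τ x (Sum.inr (j, l)) = 0 := by
  unfold Third
  apply exists_congr
  intro x
  apply and_congr
  · apply forall_congr'
    intro j
    exact all_hit a τ x (Sum.inl j)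
  · apply forall_congr'
    intro j
    apply exists_congr
    intro l
    exact some_miss a τ x (Sum.inr (j, l))

end Pool.Agent.H550R2.WH
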