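import Pool.Agent.H550R2.WH.Tree
import Pool.Agent.H550R2.WH.Red

set_option autoImplicit false
set_option linter.unusedSectionVars false

/-! The second level: symmetric reductions to queries with one alternation. -/

namespace Pool.Agent.H550R2.WH

open Finset Module Pool.Agent.H550R2.Lift Pool.Agent.H550R2.Lin

section full

variable {J1 J2 : Type} [Fintype J1] [DecidableEq J1] [Fintype J2] [DecidableEq J2] {κ b : ℕ}

/-- the equations of `J1` have no solution except zero -/
def Full (a : Rows (J1 ⊕ J2) κ → Fin b → ZMod 2) : Prop :=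
  ∀ x, (∀ j, hom a x (Sum.inl j) = 0) → x = 0

open Classical in
/-- the number of systems of which a nonzero vector is a solution -/
theorem count_hom (x : Fin (κ + 1) → Fin b → ZMod 2) (hx : x ≠ 0) :
    (univ.filter fun a : Rows (J1 ⊕ J2) κ → Fin b → ZMod 2 =>
      ∀ j, hom a x (Sum.inl j) = 0).card * 2 ^ Fintype.card J1 ≤
      Fintype.card (Rows (J1 ⊕ J2) κ → Fin b → ZMod 2) := by
  obtain ⟨i, hi⟩ := Function.ne_iff.1 hx
  obtain ⟨β, hβ⟩ := Function.ne_iff.1 hi
  have hβ1 : x i β = 1 := (zmod2_cases _).resolve_left hβ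
  let sh : (J1 → ZMod 2) → Rows (J1 ⊕ J2) κ → Fin b → ZMod 2 := fun z r β' =>
    Sum.elim (fun j => if r.2 = i ∧ β' = β then z j else 0) (fun _ => 0) r.1
  have hsh : ∀ (a : Rows (J1 ⊕ J2) κ → Fin b → ZMod 2) z j,
      hom (a + sh z) x (Sum.inl j) = hom a x (Sum.inl j) + z j := by
    intro a z j
    have h1 : ∀ i', pr ((a + sh z) (Sum.inl j, i')) (x i') =
        pr (a (Sum.inl j, i')) (x i') + if i' = i then z j else 0 := by
      intro i'
      have h2 : (a + sh z) (Sum.inl j, i') = a (Sum.inl j, i') + sh z (Sum.inl j, i') := rfl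
      rw [h2, pr_add_left]
      congr 1
      unfold pr
      rw [Finset.sum_eq_single β]
      · show (if i' = i ∧ β = β then z j else 0) * x i' β = _
        by_cases h3 : i' = i
        · subst h3
          rw [if_pos ⟨rfl, rfl⟩, if_pos rfl, hβ1, mul_one]
        · rw [if_neg (fun h => h3 h.1), if_neg h3, zero_mul]
      · intro β' _ hne
        show (if i' = i ∧ β' = β then z j else 0) * x i' β' = 0
        rw [if_neg (fun h => hne h.2), zero_mul]
      · intro h
        exact absurd (Finset.mem_univ _) h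
    unfold hom
    rw [Finset.sum_congr rfl (fun i' _ => h1 i'), Finset.sum_add_distrib]
    congr 1
    rw [Finset.sum_ite_eq' univ i, if_pos (Finset.mem_univ _)]
  have hinj : Function.Injective
      (fun z : {a : Rows (J1 ⊕ J2) κ → Fin b → ZMod 2 // ∀ j, hom a x (Sum.inl j) = 0} ×
      (J1 → ZMod 2) => (z.1.1 + sh z.2 : Rows (J1 ⊕ J2) κ → Fin b → ZMod 2)) := by
    rintro ⟨⟨T, hT⟩, z⟩ ⟨⟨T', hT'⟩, z'⟩ h
    have h0 : T + sh z = T' + sh z' := h
    have h1 : z = z' := by
      funext j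
      have h2 := hsh T z j
      have h3 := hsh T' z' j
      rw [h0] at h2
      rw [h2, hT, hT', zero_add, zero_add] at h3
      exact h3
    rw [h1] at h0
    have h4 : T = T' := add_right_cancel h0
    apply Prod.ext
    · exact Subtype.ext h4
    · exact h1
  have h1 := Fintype.card_le_of_injective _ hinj
  rw [Fintype.card_prod, Fintype.card_subtype, Fintype.card_fun, ZMod.card] at h1
  exact h1

open Classical in
/-- the number of systems that are not full -/
theorem count_full :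
    (univ.filter fun a : Rows (J1 ⊕ J2) κ → Fin b → ZMod 2 => ¬ Full a).card *
      2 ^ Fintype.card J1 ≤ 2 ^ (b * (κ + 1)) *
      Fintype.card (Rows (J1 ⊕ J2) κ → Fin b → ZMod 2) := by
  have hsub : (univ.filter fun a : Rows (J1 ⊕ J2) κ → Fin b → ZMod 2 => ¬ Full a) ⊆
      (univ.filter fun x : Fin (κ + 1) → Fin b → ZMod 2 => x ≠ 0).biUnion fun x =>
        univ.filter fun a : Rows (J1 ⊕ J2) κ → Fin b → ZMod 2 =>
          ∀ j, hom a x (Sum.inl j) = 0 := by
    intro a ha
    have h1 : ¬ Full a := (Finset.mem_filter.1 ha).2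
    rw [Finset.mem_biUnion]
    by_contra hno
    apply h1
    intro x hx
    by_contra hne
    exact hno ⟨x, Finset.mem_filter.2 ⟨Finset.mem_univ _, hne⟩,
      Finset.mem_filter.2 ⟨Finset.mem_univ _, hx⟩⟩
  calc (univ.filter fun a : Rows (J1 ⊕ J2) κ → Fin b → ZMod 2 => ¬ Full a).card *
      2 ^ Fintype.card J1 ≤
        (∑ x ∈ univ.filter (fun x : Fin (κ + 1) → Fin b → ZMod 2 => x ≠ 0),
          (univ.filter fun a : Rows (J1 ⊕ J2) κ → Fin b → ZMod 2 =>
            ∀ j, hom a x (Sum.inl j) = 0).card) * 2 ^ Fintype.card J1 := by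
        apply Nat.mul_le_mul_right
        exact (Finset.card_le_card hsub).trans Finset.card_biUnion_le
    _ ≤ ∑ _x ∈ univ.filter (fun x : Fin (κ + 1) → Fin b → ZMod 2 => x ≠ 0),
          Fintype.card (Rows (J1 ⊕ J2) κ → Fin b → ZMod 2) := by
        rw [Finset.sum_mul]
        exact Finset.sum_le_sum fun x hx => count_hom x (Finset.mem_filter.1 hx).2
    _ ≤ _ := by
        rw [Finset.sum_const, smul_eq_mul]
        apply Nat.mul_le_mul_right
        refine (Finset.card_le_univ _).trans (le_of_eq ?_)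
        rw [Fintype.card_fun, Fintype.card_fun, ZMod.card, Fintype.card_fin, Fintype.card_fin,
          ← pow_mul]

open Classical in
theorem exists_good_full {t : ℕ} (h4 : 2 * t ≤ κ) (C : Finset (Idx (J1 ⊕ J2) κ b → ZMod 2))
    (hC : 4 * ((κ + 1) * C.card) ≤ 2 ^ (b * (t + 1)))
    (hJ : b * (κ + 1) + 2 ≤ Fintype.card J1) :
    ∃ a : Rows (J1 ⊕ J2) κ → Fin b → ZMod 2, Good a C t ∧ Full a := by
  by_contra hno
  have h1 := count_bad (J := J1 ⊕ J2) (b := b) (w := 2 * t) (t := t) h4 C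
  have h2 := count_full (J1 := J1) (J2 := J2) (κ := κ) (b := b)
  set X := univ.filter fun a : Rows (J1 ⊕ J2) κ → Fin b → ZMod 2 =>
      ∃ x, t < wt x ∧ wt x ≤ 2 * t ∧ col a x ∈ C with hX
  set X' := univ.filter fun a : Rows (J1 ⊕ J2) κ → Fin b → ZMod 2 => ¬ Full a with hX'
  set m := Fintype.card (Rows (J1 ⊕ J2) κ → Fin b → ZMod 2) with hm
  have hm0 : 0 < m := Fintype.card_pos
  have h3 : X ∪ X' = univ := by
    rw [Finset.eq_univ_iff_forall]
    intro a
    rw [Finset.mem_union]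
    by_contra h
    have ha : a ∉ X := fun h' => h (Or.inl h')
    have ha' : a ∉ X' := fun h' => h (Or.inr h')
    apply hno
    refine ⟨a, ?_, ?_⟩
    · intro x hx hx' hc
      exact ha (Finset.mem_filter.2 ⟨Finset.mem_univ _, x, hx, hx', hc⟩)
    · by_contra hf
      exact ha' (Finset.mem_filter.2 ⟨Finset.mem_univ _, hf⟩)
  have h5 : m ≤ X.card + X'.card := by
    rw [hm, ← Finset.card_univ, ← h3]
    exact Finset.card_union_le _ _
  have h6 : 4 * X.card ≤ m := by
    have h7 : 4 * X.card * 2 ^ (b * (t + 1)) ≤ m * 2 ^ (b * (t + 1)) := by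
      calc 4 * X.card * 2 ^ (b * (t + 1)) = 4 * (X.card * 2 ^ (b * (t + 1))) := by ring
        _ ≤ 4 * ((κ + 1) * C.card * m) := Nat.mul_le_mul_left _ h1
        _ = 4 * ((κ + 1) * C.card) * m := by ring
        _ ≤ 2 ^ (b * (t + 1)) * m := Nat.mul_le_mul_right _ hC
        _ = m * 2 ^ (b * (t + 1)) := mul_comm _ _
    exact Nat.le_of_mul_le_mul_right h7 (by positivity)
  have h8 : 4 * X'.card ≤ m := by
    have h7 : 4 * X'.card * 2 ^ (b * (κ + 1)) ≤ m * 2 ^ (b * (κ + 1)) := by
      calc 4 * X'.card * 2 ^ (b * (κ + 1)) = X'.card * 2 ^ (b * (κ + 1) + 2) := by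
            rw [pow_add]
            ring
        _ ≤ X'.card * 2 ^ Fintype.card J1 :=
            Nat.mul_le_mul_left _ (Nat.pow_le_pow_right (by norm_num) hJ)
        _ ≤ 2 ^ (b * (κ + 1)) * m := h2
        _ = m * 2 ^ (b * (κ + 1)) := mul_comm _ _
    exact Nat.le_of_mul_le_mul_right h7 (by positivity)
  omega

end full

section rhs

variable {J1 M N : Type} [Fintype J1] [DecidableEq J1] [Fintype M] [DecidableEq M]
  [Fintype N] [DecidableEq N] {κ b : ℕ}

/-- the right-hand side given by `B` -/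
def tauB (B : M × N → ZMod 2) : Rows (J1 ⊕ M × N) κ → ZMod 2 := fun r =>
  if r.2 = 0 then Sum.elim (fun _ => 1) (fun m => B m + 1) r.1 else 0

/-- the difference of two of them -/
def difB (B : M × N → ZMod 2) : Rows (J1 ⊕ M × N) κ → ZMod 2 := fun r =>
  if r.2 = 0 then Sum.elim (fun _ => 0) (fun m => B m) r.1 else 0

theorem tauB_add (B C : M × N → ZMod 2) :
    (tauB B + difB (B + C) : Rows (J1 ⊕ M × N) κ → ZMod 2) = tauB C := by
  funext ⟨j, i⟩
  show (if i = 0 then Sum.elim (fun _ => 1) (fun m => B m + 1) j else 0) +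
    (if i = 0 then Sum.elim (fun _ => 0) (fun m => B m + C m) j else 0) =
    if i = 0 then Sum.elim (fun _ => 1) (fun m => C m + 1) j else 0
  by_cases h : i = 0
  · rw [if_pos h, if_pos h, if_pos h]
    rcases j with j | m
    · exact add_zero _
    · show B m + 1 + (B m + C m) = C m + 1
      have := CharTwo.add_self_eq_zero (B m)
      linear_combination this
  · rw [if_neg h, if_neg h, if_neg h, add_zero]

/-- the column of a combination that is seen by `B` -/
def res : (J1 ⊕ M × N → ZMod 2) →ₗ[ZMod 2] (M × N → ZMod 2) :=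
  LinearMap.funLeft (ZMod 2) (ZMod 2) Sum.inr

/-- the first column of a combination -/
def col0 {J : Type} {κ : ℕ} : (Rows J κ → ZMod 2) →ₗ[ZMod 2] (J → ZMod 2) :=
  LinearMap.funLeft (ZMod 2) (ZMod 2) fun j => (j, 0)

theorem val_difB (B : M × N → ZMod 2) (x : Rows (J1 ⊕ M × N) κ → ZMod 2) :
    val (difB B) x = pr (res (col0 x)) B := by
  rw [val_apply, Fintype.sum_prod_type, Fintype.sum_sum_type]
  have h1 : ∀ (j : J1 ⊕ M × N), ∑ i : Fin (κ + 1), x (j, i) *
      (difB B : Rows (J1 ⊕ M × N) κ → ZMod 2) (j, i) =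
      x (j, 0) * (difB B : Rows (J1 ⊕ M × N) κ → ZMod 2) (j, 0) := by
    intro j
    rw [Finset.sum_eq_single 0]
    · intro i _ hi
      have h2 : (difB B : Rows (J1 ⊕ M × N) κ → ZMod 2) (j, i) = 0 := if_neg hi
      rw [h2, mul_zero]
    · intro h
      exact absurd (Finset.mem_univ _) h
  rw [Finset.sum_congr rfl (fun j _ => h1 (Sum.inl j)),
    Finset.sum_congr rfl (fun m _ => h1 (Sum.inr m))]
  have h2 : ∑ j : J1, x (Sum.inl j, 0) *
      (difB B : Rows (J1 ⊕ M × N) κ → ZMod 2) (Sum.inl j, 0) = 0 := by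
    apply Finset.sum_eq_zero
    intro j _
    exact mul_zero _
  rw [h2, zero_add]
  rfl

theorem sum_tauB_inl (B : M × N → ZMod 2) (j : J1) :
    ∑ i, (tauB B : Rows (J1 ⊕ M × N) κ → ZMod 2) (Sum.inl j, i) = 1 := by
  show ∑ i : Fin (κ + 1), (if i = 0 then (1 : ZMod 2) else 0) = 1
  rw [Finset.sum_ite_eq' univ (0 : Fin (κ + 1)), if_pos (Finset.mem_univ _)]

theorem sum_tauB_inr (B : M × N → ZMod 2) (m : M × N) :
    ∑ i, (tauB B : Rows (J1 ⊕ M × N) κ → ZMod 2) (Sum.inr m, i) = B m + 1 := by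
  show ∑ i : Fin (κ + 1), (if i = 0 then (B m + 1 : ZMod 2) else 0) = B m + 1
  rw [Finset.sum_ite_eq' univ (0 : Fin (κ + 1)), if_pos (Finset.mem_univ _)]

/-- **The solvable right-hand sides.** -/
theorem third_tauB (a : Rows (J1 ⊕ M × N) κ → Fin b → ZMod 2) (ha : Full a)
    (B : M × N → ZMod 2) : Third (sys a (tauB B)) ↔ ∀ j, ∃ l, B (j, l) ≠ 0 := by
  rw [third_iff]
  have h3 : ∀ s : ZMod 2, 0 + (s + 1) = 0 ↔ s ≠ 0 := by decide
  have h4 : ∀ s : ZMod 2, s + 1 = 1 → s = 0 := by decide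
  constructor
  · rintro ⟨x, h1, h2⟩ j
    have hx : x = 0 := by
      apply ha
      intro j'
      have h5 := h1 j'
      rw [eqv_eq, sum_tauB_inl] at h5
      exact h4 _ h5
    obtain ⟨l, hl⟩ := h2 j
    rw [hx, eqv_eq, hom_zero, sum_tauB_inr] at hl
    exact ⟨l, (h3 _).1 hl⟩
  · intro h
    refine ⟨0, fun j => ?_, fun j => ?_⟩
    · rw [eqv_eq, hom_zero, sum_tauB_inl, zero_add]
    · obtain ⟨l, hl⟩ := h j
      refine ⟨l, ?_⟩
      rw [eqv_eq, hom_zero, sum_tauB_inr]
      exact (h3 _).2 hl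

end rhs

end Pool.Agent.H550R2.WH
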