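import Pool.Agent.H550R2.WH.Up
import Pool.Agent.H550R2.WH.Defs3

set_option autoImplicit false
set_option linter.unusedSectionVars false

/-! The problem of the third level is a query of the third level. -/

namespace Pool.Agent.H550R2.WH

open Finset Module Pool.Agent.H550R2.Lift Pool.Agent.H550R2.Lin

variable {J1 M N : Type} [Fintype J1] [DecidableEq J1] [Fintype M] [DecidableEq M]
  [Fintype N] [DecidableEq N] {κ b : ℕ}

/-- the first family belongs to `J1` -/
def rel1 : J1 ⊕ M × N → Bool := Sum.elim (fun _ => true) fun _ => false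

/-- both families belong to the same `j` -/
def rel2 (p p' : J1 ⊕ M × N) : Bool :=
  Sum.elim (fun _ => false) (fun m => Sum.elim (fun _ => false) (fun m' => decide (m.1 = m'.1)) p') p

/-- the relations: being in block `i`, incidence, being a set of `J1`, being sets of the same `j` -/
def algT : Fin (κ + 1) ⊕ Fin 3 → Uni (J1 ⊕ M × N) κ b → Uni (J1 ⊕ M × N) κ b →
    LAlg (Ver (κ + 1) b × Sets (J1 ⊕ M × N) κ)
  | .inl i, .inl u, _ => .out (decide (u.1 = i))
  | .inl _, .inr _, _ => .out false
  | .inr 0, .inl u, .inr s => bitA (u, s)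
  | .inr 0, .inl _, .inl _ => .out false
  | .inr 0, .inr _, _ => .out false
  | .inr 1, .inl _, _ => .out false
  | .inr 1, .inr s, _ => .out (rel1 s.1)
  | .inr 2, .inr s, .inr s' => .out (rel2 s.1 s'.1)
  | .inr 2, .inr _, .inl _ => .out false
  | .inr 2, .inl _, _ => .out false

theorem fin3 (l : Fin 3) : l = 0 ∨ l = 1 ∨ l = 2 := by
  revert l
  decide

/-- the reduction that writes down the structure -/
def redT : SRed (Ver (κ + 1) b × Sets (J1 ⊕ M × N) κ) (Idx (J1 ⊕ M × N) κ b)
    (Fin (κ + 1) ⊕ Fin 3) (Uni (J1 ⊕ M × N) κ b) 2 pS where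
  ρ := rhoU
  alg := fun l o => algT l (o 0) (o 1)
  sym := by
    intro l o y h
    have h0 := h 0
    have h1 := h 1
    revert h0 h1
    generalize o 0 = p
    generalize o 1 = p'
    intro h0 h1
    rcases l with i | c
    · rcases p with u | s <;> exact trivial
    · rcases fin3 c with rfl | rfl | rfl
      · rcases p with u | s
        · rcases p' with u' | s'
          · exact trivial
          · apply bitA_sym
            rw [rhoU_inl] at h0
            rw [rhoU_inr] at h1
            exact Prod.ext (Sum.inl_injective h0) (Sum.inr_injective h1)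
        · exact trivial
      · rcases p with u | s <;> exact trivial
      · rcases p with u | s
        · exact trivial
        · rcases p' with u' | s' <;> exact trivial

theorem redT_size : (redT (J1 := J1) (M := M) (N := N) (κ := κ) (b := b)).size = 0 := by
  apply Finset.sum_eq_zero
  intro l _
  apply Finset.sum_eq_zero
  intro o _
  show (algT l (o 0) (o 1)).size = 0
  generalize o 0 = p
  generalize o 1 = p'
  rcases l with i | c
  · rcases p with u | s <;> rfl
  · rcases fin3 c with rfl | rfl | rfl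
    · rcases p with u | s
      · rcases p' with u' | s' <;> rfl
      · rfl
    · rcases p with u | s <;> rfl
    · rcases p with u | s
      · rfl
      · rcases p' with u' | s' <;> rfl

theorem redT_equiv : (redT (J1 := J1) (M := M) (N := N) (κ := κ) (b := b)).Equivariant := by
  classical
  intro v y l o
  show (algT l (rhoU (Multiplicative.ofAdd y) (o 0)) (rhoU (Multiplicative.ofAdd y) (o 1))).run
    (fun i => v ((pS y).symm i)) = (algT l (o 0) (o 1)).run v
  generalize o 0 = p
  generalize o 1 = p'
  rcases l with i | c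
  · rcases p with u | s <;> rfl
  · rcases fin3 c with rfl | rfl | rfl
    · rcases p with u | s
      · rcases p' with u' | s'
        · rfl
        · rw [rhoU_inl, rhoU_inr]
          show (bitA (trV (fun z => y (Sum.inl z)) u, trS (fun z => y (Sum.inr z)) s')).run
            (fun i => v ((pS y).symm i)) = (bitA (u, s')).run v
          rw [bitA_run, bitA_run]
          have h1 : (pS y).symm (trV (fun z => y (Sum.inl z)) u,
              trS (fun z => y (Sum.inr z)) s') = (u, s') := (pS y).symm_apply_apply (u, s')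
          rw [h1]
      · rfl
    · rcases p with u | s <;> rfl
    · rcases p with u | s
      · rfl
      · rcases p' with u' | s' <;> rfl

theorem algT_inc {E : Ver (κ + 1) b → Sets (J1 ⊕ M × N) κ → Prop} (u : Ver (κ + 1) b)
    (s : Sets (J1 ⊕ M × N) κ) :
    (algT (Sum.inr 0) (Sum.inl u) (Sum.inr s)).run (inc E) = true ↔ E u s := algU_inc u s

theorem algT_blk {v : Ver (κ + 1) b × Sets (J1 ⊕ M × N) κ → ℝ} (i : Fin (κ + 1))
    (p p' : Uni (J1 ⊕ M × N) κ b) :
    (algT (Sum.inl i) p p').run v = true ↔ ∃ x, p = Sum.inl (i, x) := by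
  rcases p with u | s
  · exact algU_blk (v := v) i (Sum.inl u) p'
  · exact algU_blk (v := v) i (Sum.inr s) p'

theorem algT_one {v : Ver (κ + 1) b × Sets (J1 ⊕ M × N) κ → ℝ}
    (p p' : Uni (J1 ⊕ M × N) κ b) :
    (algT (Sum.inr 1) p p').run v = true ↔ ∃ j σ, p = Sum.inr (Sum.inl j, σ) := by
  rcases p with u | ⟨j | m, σ⟩
  · constructor
    · intro h
      have h' : false = true := h
      exact absurd h' (by decide)
    · rintro ⟨j, σ, h⟩
      exact absurd h (by rintro ⟨⟩)
  · exact ⟨fun _ => ⟨j, σ, rfl⟩, fun _ => rfl⟩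
  · constructor
    · intro h
      have h' : false = true := h
      exact absurd h' (by decide)
    · rintro ⟨j, σ, h⟩
      exact absurd h (by rintro ⟨⟩)

theorem algT_two {v : Ver (κ + 1) b × Sets (J1 ⊕ M × N) κ → ℝ}
    (p p' : Uni (J1 ⊕ M × N) κ b) :
    (algT (Sum.inr 2) p p').run v = true ↔ ∃ j l σ l' σ', p = Sum.inr (Sum.inr (j, l), σ) ∧
      p' = Sum.inr (Sum.inr (j, l'), σ') := by
  rcases p with u | ⟨j | m, σ⟩
  · constructor
    · intro h
      have h' : false = true := h
      exact absurd h' (by decide)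
    · rintro ⟨j, l, σ, l', σ', h, _⟩
      exact absurd h (by rintro ⟨⟩)
  · rcases p' with u' | s'
    · constructor
      · intro h
        have h' : false = true := h
        exact absurd h' (by decide)
      · rintro ⟨j, l, σ, l', σ', h, _⟩
        exact absurd h (by rintro ⟨⟩)
    · constructor
      · intro h
        have h' : false = true := h
        exact absurd h' (by decide)
      · rintro ⟨j, l, σ, l', σ', h, _⟩
        exact absurd h (by rintro ⟨⟩)
  · rcases p' with u' | ⟨j' | m', σ'⟩
    · constructor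
      · intro h
        have h' : false = true := h
        exact absurd h' (by decide)
      · rintro ⟨j, l, σ, l', σ', _, h⟩
        exact absurd h (by rintro ⟨⟩)
    · constructor
      · intro h
        have h' : false = true := h
        exact absurd h' (by decide)
      · rintro ⟨j, l, σ, l', σ', _, h⟩
        exact absurd h (by rintro ⟨⟩)
    · obtain ⟨j, l⟩ := m
      obtain ⟨j', l'⟩ := m'
      constructor
      · intro h
        have h' : decide (j = j') = true := h
        rw [decide_eq_true_iff] at h'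
        subst h'
        exact ⟨j, l, σ, l', σ', rfl, rfl⟩
      · rintro ⟨j0, l0, σ0, l1, σ1, h1, h2⟩
        show decide (j = j') = true
        rw [decide_eq_true_iff]
        have e1 := congrArg Prod.fst (Sum.inr_injective h1)
        have e2 := congrArg Prod.fst (Sum.inr_injective h2)
        have e3 := congrArg Prod.fst (Sum.inr_injective e1)
        have e4 := congrArg Prod.fst (Sum.inr_injective e2)
        exact e3.trans e4.symm

/-- the query -/
def psiT (R : (Fin (κ + 1) ⊕ Fin 3) → (Fin 2 → Fin (κ + 1) ⊕ (Fin 1 ⊕ Fin 1)) → Bool) : Prop :=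
  (∀ i, R (Sum.inl i) ![Sum.inl i, Sum.inl i] = true) ∧
    (R (Sum.inr 1) ![Sum.inr (Sum.inl 0), Sum.inr (Sum.inl 0)] = true →
      ∃ i, R (Sum.inr 0) ![Sum.inl i, Sum.inr (Sum.inl 0)] = true) ∧
    (R (Sum.inr 2) ![Sum.inr (Sum.inl 0), Sum.inr (Sum.inl 0)] = true →
      R (Sum.inr 2) ![Sum.inr (Sum.inl 0), Sum.inr (Sum.inr 0)] = true ∧
      ∀ i, ¬ R (Sum.inr 0) ![Sum.inl i, Sum.inr (Sum.inr 0)] = true)

/-- **The problem is a query of the third level.** -/
theorem redT_third [Nonempty N] (E : Ver (κ + 1) b → Sets (J1 ⊕ M × N) κ → Prop) :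
    Sig3 psiT ((redT (J1 := J1) (M := M) (N := N) (κ := κ) (b := b)).out (inc E)) ↔ Third E := by
  classical
  constructor
  · rintro ⟨T, hT⟩
    have h1 : ∀ i, ∃ x, T i = Sum.inl (i, x) := by
      intro i
      obtain ⟨S', hS'⟩ := hT fun _ => T 0
      exact (algT_blk i _ _).1 (hS'.1 i)
    choose x hx using h1
    refine ⟨x, fun j σ => ?_, fun j => ?_⟩
    · obtain ⟨S', -, h2, -⟩ := hT fun _ => Sum.inr (Sum.inl j, σ)
      obtain ⟨i, hi⟩ := h2 ((algT_one (Sum.inr (Sum.inl j, σ)) (Sum.inr (Sum.inl j, σ))).2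
        ⟨j, σ, rfl⟩)
      have h3 : (algT (Sum.inr 0) (T i) (Sum.inr (Sum.inl j, σ))).run (inc E) = true := hi
      rw [hx i] at h3
      exact ⟨i, (algT_inc _ _).1 h3⟩
    · obtain ⟨l0⟩ := (inferInstance : Nonempty N)
      obtain ⟨S', -, -, h2⟩ := hT fun _ => Sum.inr (Sum.inr (j, l0), 0)
      obtain ⟨h3, h4⟩ := h2 ((algT_two (Sum.inr (Sum.inr (j, l0), 0))
        (Sum.inr (Sum.inr (j, l0), 0))).2 ⟨j, l0, 0, l0, 0, rfl, rfl⟩)
      have h3' : (algT (Sum.inr 2) (Sum.inr (Sum.inr (j, l0), 0)) (S' 0)).run (inc E) = true := h3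
      obtain ⟨j', l, σ, l', σ', h5, h6⟩ := (algT_two _ _).1 h3'
      have h7 : j = j' := by
        have e1 := congrArg Prod.fst (Sum.inr_injective h5)
        exact congrArg Prod.fst (Sum.inr_injective e1)
      subst h7
      refine ⟨l', σ', fun i hi => h4 i ?_⟩
      show (algT (Sum.inr 0) (T i) (S' 0)).run (inc E) = true
      rw [hx i, h6]
      exact (algT_inc _ _).2 hi
  · rintro ⟨x, hx1, hx2⟩
    choose l σ hls using hx2
    refine ⟨fun i => Sum.inl (i, x i), fun S => ?_⟩
    by_cases hS : ∃ j l0 σ0, S 0 = Sum.inr (Sum.inr (j, l0), σ0)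
    · obtain ⟨j, l0, σ0, hj⟩ := hS
      refine ⟨fun _ => Sum.inr (Sum.inr (j, l j), σ j), fun i => ?_, fun h => ?_, fun _ => ?_⟩
      · exact (algT_blk i (Sum.inl (i, x i)) (Sum.inl (i, x i))).2 ⟨x i, rfl⟩
      · exfalso
        have h' : (algT (Sum.inr 1) (S 0) (S 0)).run (inc E) = true := h
        obtain ⟨j', σ', h2⟩ := (algT_one _ _).1 h'
        rw [hj] at h2
        have e1 := congrArg Prod.fst (Sum.inr_injective h2)
        exact absurd e1 (by rintro ⟨⟩)
      · constructor
        · show (algT (Sum.inr 2) (S 0) (Sum.inr (Sum.inr (j, l j), σ j))).run (inc E) = true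
          rw [hj]
          exact (algT_two _ _).2 ⟨j, l0, σ0, l j, σ j, rfl, rfl⟩
        · intro i hi
          have hi' : (algT (Sum.inr 0) (Sum.inl (i, x i))
            (Sum.inr (Sum.inr (j, l j), σ j))).run (inc E) = true := hi
          exact hls j i ((algT_inc _ _).1 hi')
    · refine ⟨S, fun i => ?_, fun h => ?_, fun h => ?_⟩
      · exact (algT_blk i (Sum.inl (i, x i)) (Sum.inl (i, x i))).2 ⟨x i, rfl⟩
      · have h' : (algT (Sum.inr 1) (S 0) (S 0)).run (inc E) = true := h
        obtain ⟨j', σ', h2⟩ := (algT_one _ _).1 h'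
        obtain ⟨i, hi⟩ := hx1 j' σ'
        refine ⟨i, ?_⟩
        show (algT (Sum.inr 0) (Sum.inl (i, x i)) (S 0)).run (inc E) = true
        rw [h2]
        exact (algT_inc _ _).2 hi
      · exfalso
        have h' : (algT (Sum.inr 2) (S 0) (S 0)).run (inc E) = true := h
        obtain ⟨j, l0, σ0, l1, σ1, h2, -⟩ := (algT_two _ _).1 h'
        exact hS ⟨j, l0, σ0, h2⟩

end Pool.Agent.H550R2.WH
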