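import Pool.Agent.H550R2.WH.Alg

set_option autoImplicit false
set_option linter.unusedSectionVars false

/-! A counting argument: a set of vectors that is closed in a weak sense and omits all vectors with a
zero block is small. -/

namespace Pool.Agent.H550R2.WH

open Finset Module Pool.Agent.H550R2.Lift Pool.Agent.H550R2.Lin

section ann

variable {R : Type} [Fintype R] [DecidableEq R]

theorem pr_comm' (p y : R → ZMod 2) : pr p y = pr y p := by
  unfold pr
  apply Finset.sum_congr rfl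
  intro a _
  ring

theorem pr_zero_right (p : R → ZMod 2) : pr p 0 = 0 := by rw [pr_comm', pr_zero_left]

/-- the vectors annihilated by a space of functionals -/
def Ann (L : Submodule (ZMod 2) (R → ZMod 2)) : Submodule (ZMod 2) (R → ZMod 2) where
  carrier := {B | ∀ q ∈ L, pr q B = 0}
  zero_mem' := fun q _ => pr_zero_right q
  add_mem' := fun {x y} hx hy q hq => by rw [pr_add_right, hx q hq, hy q hq, add_zero]
  smul_mem' := fun c x hx q hq => by
    rw [← prL_apply, map_smul, prL_apply, hx q hq, smul_zero]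

theorem mem_Ann (L : Submodule (ZMod 2) (R → ZMod 2)) (B : R → ZMod 2) :
    B ∈ Ann L ↔ ∀ q ∈ L, pr q B = 0 := Iff.rfl

theorem Ann_anti {L L' : Submodule (ZMod 2) (R → ZMod 2)} (h : L ≤ L') : Ann L' ≤ Ann L :=
  fun _ hB q hq => hB q (h hq)

theorem finrank_Ann {L L' : Submodule (ZMod 2) (R → ZMod 2)} (h : L ≤ L') {D : ℕ}
    (hD : finrank (ZMod 2) L' ≤ finrank (ZMod 2) L + D) :
    finrank (ZMod 2) (Ann L) ≤ finrank (ZMod 2) (Ann L') + D := by
  obtain ⟨C', hC'⟩ := Submodule.exists_isCompl L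
  set C : Submodule (ZMod 2) (R → ZMod 2) := C' ⊓ L' with hC
  have hsup : L ⊔ C = L' := by
    rw [hC, ← sup_inf_assoc_of_le C' h, hC'.sup_eq_top, top_inf_eq]
  have hinf : L ⊓ C = ⊥ := by
    rw [eq_bot_iff, ← hC'.inf_eq_bot]
    exact inf_le_inf_left _ inf_le_left
  have hdim : finrank (ZMod 2) C ≤ D := by
    have h1 := Submodule.finrank_sup_add_finrank_inf_eq L C
    rw [hsup, hinf, finrank_bot] at h1
    omega
  let f : (R → ZMod 2) →ₗ[ZMod 2] C →ₗ[ZMod 2] ZMod 2 := (prL (V := R)).compl₁₂ LinearMap.id C.subtype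
  have hf : ∀ (B : R → ZMod 2) (c : C), f B c = pr B c.1 := fun _ _ => rfl
  have h1 := finrank_map_inf f (Ann L)
  have h2 : finrank (ZMod 2) ((Ann L).map f) ≤ D :=
    (Submodule.finrank_le _).trans (finrank_dual_le.trans hdim)
  have h3 : finrank (ZMod 2) (Ann L ⊓ LinearMap.ker f : Submodule (ZMod 2) (R → ZMod 2)) ≤
      finrank (ZMod 2) (Ann L') := by
    apply Submodule.finrank_mono
    rintro B ⟨hB1, hB2⟩ q hq
    rw [← hsup] at hq
    obtain ⟨n, hn, c, hc, rfl⟩ := Submodule.mem_sup.1 hq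
    rw [pr_add_left, hB1 n hn, zero_add, pr_comm', ← hf B ⟨c, hc⟩]
    have h4 : f B = 0 := hB2
    rw [h4]
    rfl
  omega

open Classical in
/-- the number of annihilated vectors -/
noncomputable def nAnn (L : Submodule (ZMod 2) (R → ZMod 2)) : ℕ :=
  (univ.filter fun B : R → ZMod 2 => B ∈ Ann L).card

theorem nAnn_eq (L : Submodule (ZMod 2) (R → ZMod 2)) :
    nAnn L = 2 ^ finrank (ZMod 2) (Ann L) := by
  classical
  have h1 := Module.card_eq_pow_finrank (K := ZMod 2) (V := Ann L)
  rw [ZMod.card] at h1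
  rw [← h1]
  unfold nAnn
  rw [Fintype.card_subtype]

theorem nAnn_pos (L : Submodule (ZMod 2) (R → ZMod 2)) : (0 : ℝ) < nAnn L := by
  rw [nAnn_eq]
  positivity

theorem nAnn_le {L L' : Submodule (ZMod 2) (R → ZMod 2)} (h : L ≤ L') {D : ℕ}
    (hD : finrank (ZMod 2) L' ≤ finrank (ZMod 2) L + D) :
    (nAnn L : ℝ) * (1 / 2) ^ D ≤ nAnn L' := by
  have h1 := finrank_Ann h hD
  rw [nAnn_eq, nAnn_eq]
  push_cast
  have h2 : (2 : ℝ) ^ finrank (ZMod 2) (Ann L) ≤ 2 ^ (finrank (ZMod 2) (Ann L') + D) :=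
    pow_le_pow_right₀ (by norm_num) h1
  calc (2 : ℝ) ^ finrank (ZMod 2) (Ann L) * (1 / 2) ^ D ≤
        2 ^ (finrank (ZMod 2) (Ann L') + D) * (1 / 2) ^ D :=
        mul_le_mul_of_nonneg_right h2 (by positivity)
    _ = 2 ^ finrank (ZMod 2) (Ann L') := by
        rw [pow_add, mul_assoc, ← mul_pow]
        norm_num

open Classical in
/-- the class of `y` modulo the annihilator -/
noncomputable def cls (L : Submodule (ZMod 2) (R → ZMod 2)) (y : R → ZMod 2) :
    Finset (R → ZMod 2) := univ.filter fun B => B + y ∈ Ann L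

theorem mem_cls (L : Submodule (ZMod 2) (R → ZMod 2)) (y B : R → ZMod 2) :
    B ∈ cls L y ↔ B + y ∈ Ann L := by
  classical
  unfold cls
  rw [Finset.mem_filter]
  exact ⟨fun h => h.2, fun h => ⟨Finset.mem_univ _, h⟩⟩

theorem add_self' (y : R → ZMod 2) : y + y = 0 := by
  funext r
  exact CharTwo.add_self_eq_zero _

theorem cls_self (L : Submodule (ZMod 2) (R → ZMod 2)) (y : R → ZMod 2) : y ∈ cls L y := by
  rw [mem_cls, add_self']
  exact Submodule.zero_mem _

theorem cls_trans {L : Submodule (ZMod 2) (R → ZMod 2)} {x y z : R → ZMod 2}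
    (h1 : x ∈ cls L y) (h2 : y ∈ cls L z) : x ∈ cls L z := by
  rw [mem_cls] at *
  have h3 := Submodule.add_mem _ h1 h2
  have h4 : x + y + (y + z) = x + z := by
    have := add_self' y
    calc x + y + (y + z) = x + (y + y) + z := by ring
      _ = x + z := by rw [this, add_zero]
  rwa [h4] at h3

theorem cls_symm {L : Submodule (ZMod 2) (R → ZMod 2)} {x y : R → ZMod 2}
    (h1 : x ∈ cls L y) : y ∈ cls L x := by
  rw [mem_cls] at *
  rwa [add_comm]

theorem cls_mono {L L' : Submodule (ZMod 2) (R → ZMod 2)} (h : L ≤ L') (y : R → ZMod 2) :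
    cls L' y ⊆ cls L y := by
  intro B hB
  rw [mem_cls] at *
  exact Ann_anti h hB

theorem card_cls (L : Submodule (ZMod 2) (R → ZMod 2)) (y : R → ZMod 2) :
    (cls L y).card = nAnn L := by
  classical
  unfold nAnn
  apply Finset.card_bij (fun B _ => B + y)
  · intro B hB
    exact Finset.mem_filter.2 ⟨Finset.mem_univ _, (mem_cls L y B).1 hB⟩
  · intro B _ B' _ h
    exact add_right_cancel h
  · intro B hB
    refine ⟨B + y, ?_, ?_⟩
    · rw [mem_cls, add_assoc, add_self', add_zero]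
      exact (Finset.mem_filter.1 hB).2
    · show B + y + y = B
      rw [add_assoc, add_self', add_zero]

/-- double counting -/
theorem double_count (A : Finset (R → ZMod 2)) {L L' : Submodule (ZMod 2) (R → ZMod 2)}
    (h : L ≤ L') (y0 : R → ZMod 2) [DecidableEq (R → ZMod 2)] :
    ∑ v ∈ cls L y0, (A ∩ cls L' v).card = (A ∩ cls L y0).card * nAnn L' := by
  have h1 : ∀ v, (A ∩ cls L' v).card = ∑ B ∈ A, if B ∈ cls L' v then 1 else 0 := by
    intro v
    rw [← Finset.card_filter]
    congr 1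
  rw [Finset.sum_congr rfl (fun v _ => h1 v), Finset.sum_comm]
  have h2 : ∀ B ∈ A, ∑ v ∈ cls L y0, (if B ∈ cls L' v then 1 else 0) =
      if B ∈ cls L y0 then nAnn L' else 0 := by
    intro B _
    rw [← Finset.card_filter]
    by_cases hB : B ∈ cls L y0
    · rw [if_pos hB, ← card_cls L' B]
      congr 1
      ext v
      rw [Finset.mem_filter]
      constructor
      · rintro ⟨_, h3⟩
        exact cls_symm h3
      · intro h3
        exact ⟨cls_trans (cls_mono h B h3) hB, cls_symm h3⟩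
    · rw [if_neg hB, Finset.card_eq_zero, Finset.filter_eq_empty_iff]
      intro v hv h3
      exact hB (cls_trans (cls_mono h v h3) hv)
  rw [Finset.sum_congr rfl h2, ← Finset.sum_filter, Finset.sum_const, smul_eq_mul]
  congr 2

end ann

section tree

variable {M N : Type} [Fintype M] [DecidableEq M] [Fintype N] [DecidableEq N]

/-- few equations leave a block free -/
theorem exists_y (L : Submodule (ZMod 2) (M × N → ZMod 2))
    (hL : finrank (ZMod 2) L < Fintype.card M) (y0 : M × N → ZMod 2) :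
    ∃ j y, (∀ l, y (j, l) = 0) ∧ y ∈ cls L y0 := by
  classical
  have hj : ∃ j, ∀ q ∈ L, (∀ j' l, j' ≠ j → q (j', l) = 0) → q = 0 := by
    by_contra hno
    have hno' : ∀ j, ∃ q ∈ L, (∀ j' l, j' ≠ j → q (j', l) = 0) ∧ q ≠ 0 := by
      intro j
      by_contra h
      apply hno
      refine ⟨j, fun q hq hs => ?_⟩
      by_contra hne
      exact h ⟨q, hq, hs, hne⟩
    choose q hq1 hq2 hq3 using hno'
    have hli : LinearIndependent (ZMod 2) (fun j => (⟨q j, hq1 j⟩ : L)) := by
      rw [Fintype.linearIndependent_iff]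
      intro c hc j
      obtain ⟨⟨j', l⟩, hr⟩ := Function.ne_iff.1 (hq3 j)
      have hj' : j' = j := by
        by_contra hne
        exact hr (hq2 j j' l hne)
      subst hj'
      have h1 := congrArg (fun z : L => z.1 (j', l)) hc
      have h2 : (∑ i, c i • (⟨q i, hq1 i⟩ : L)).1 (j', l) = ∑ i, c i * q i (j', l) := by
        rw [Submodule.coe_sum, Finset.sum_apply]
        rfl
      have h3 : ∑ i, c i * q i (j', l) = 0 := by
        rw [← h2]
        exact h1
      rw [Finset.sum_eq_single j'] at h3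
      · rcases mul_eq_zero.1 h3 with h4 | h4
        · exact h4
        · exact absurd h4 hr
      · intro i _ hi
        rw [hq2 i j' l (Ne.symm hi), mul_zero]
      · intro h
        exact absurd (Finset.mem_univ _) h
    have h1 := hli.fintype_card_le_finrank
    omega
  obtain ⟨j, hj⟩ := hj
  let Z : Submodule (ZMod 2) (M × N → ZMod 2) :=
    { carrier := {y | ∀ l, y (j, l) = 0}
      zero_mem' := fun _ => rfl
      add_mem' := fun {x y} hx hy l => by
        rw [Pi.add_apply, hx l, hy l, add_zero]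
      smul_mem' := fun c x hx l => by
        rw [Pi.smul_apply, hx l, smul_zero] }
  let f : L →ₗ[ZMod 2] Z →ₗ[ZMod 2] ZMod 2 :=
    (prL (V := M × N)).compl₁₂ L.subtype Z.subtype
  obtain ⟨y, hy⟩ := exists_rep f ((prL (V := M × N)).flip y0 |>.comp L.subtype) (by
    intro q hq
    have h1 : q.1 = 0 := by
      apply hj q.1 q.2
      intro j' l hne
      have h2 := hq ⟨Pi.single (j', l) 1, fun l' => by
        apply Pi.single_eq_of_ne
        intro h
        exact hne (congrArg Prod.fst h).symm⟩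
      have h3 : pr q.1 (Pi.single (j', l) 1) = 0 := h2
      rwa [pr_single] at h3
    show pr q.1 y0 = 0
    rw [h1, pr_zero_left])
  refine ⟨j, y.1, y.2, ?_⟩
  rw [mem_cls]
  intro q hq
  have h1 : pr q y0 = pr q y.1 := hy ⟨q, hq⟩
  rw [pr_add_right, h1]
  exact CharTwo.add_self_eq_zero _

/-- **The counting argument.** -/
theorem tree [DecidableEq (M × N → ZMod 2)] (A : Finset (M × N → ZMod 2))
    (P : Submodule (ZMod 2) (M × N → ZMod 2)) (D : ℕ)
    (hA : ∀ y : M × N → ZMod 2, (∃ j, ∀ l, y (j, l) = 0) →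
      ∃ Q : Submodule (ZMod 2) (M × N → ZMod 2),
        finrank (ZMod 2) (P ⊔ Q : Submodule (ZMod 2) (M × N → ZMod 2)) ≤ finrank (ZMod 2) P + D ∧
        ∀ B ∈ A, B ∉ cls Q y) (n : ℕ) :
    ∀ L : Submodule (ZMod 2) (M × N → ZMod 2), P ≤ L →
      finrank (ZMod 2) L + n * D < Fintype.card M → ∀ y0,
      ((A ∩ cls L y0).card : ℝ) ≤ (1 - (1 / 2) ^ D) ^ n * nAnn L := by
  have hD0 : (0 : ℝ) ≤ 1 - (1 / 2) ^ D := by
    have : ((1 : ℝ) / 2) ^ D ≤ 1 := pow_le_one₀ (by norm_num) (by norm_num)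
    linarith
  induction n with
  | zero =>
    intro L _ _ y0
    rw [pow_zero, one_mul, ← card_cls L y0]
    exact_mod_cast Finset.card_le_card Finset.inter_subset_right
  | succ n ih =>
    intro L hPL hL y0
    obtain ⟨j, y, hy1, hy2⟩ := exists_y L (by
      have : 0 ≤ (n + 1) * D := Nat.zero_le _
      omega) y0
    obtain ⟨Q, hQ1, hQ2⟩ := hA y ⟨j, hy1⟩
    set L' := L ⊔ Q with hL'
    have hLL' : L ≤ L' := le_sup_left
    have hdim : finrank (ZMod 2) L' ≤ finrank (ZMod 2) L + D := by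
      have h1 := Submodule.finrank_sup_add_finrank_inf_eq L (P ⊔ Q)
      have h2 : L ⊔ (P ⊔ Q) = L' := by
        rw [← sup_assoc, sup_eq_left.2 hPL]
      have h3 : finrank (ZMod 2) P ≤
          finrank (ZMod 2) (L ⊓ (P ⊔ Q) : Submodule (ZMod 2) (M × N → ZMod 2)) :=
        Submodule.finrank_mono (le_inf hPL le_sup_left)
      rw [h2] at h1
      omega
    have hih := ih L' (hPL.trans hLL') (by
      have : (n + 1) * D = n * D + D := by ring
      omega)
    set ε : ℝ := (1 - (1 / 2) ^ D) ^ n with hε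
    have hε0 : 0 ≤ ε := pow_nonneg hD0 n
    have hdc := double_count A hLL' y0
    have hsplit : (∑ v ∈ cls L y0, ((A ∩ cls L' v).card : ℝ)) ≤
        ((nAnn L : ℝ) - nAnn L') * (ε * nAnn L') := by
      have hsub : cls L' y ⊆ cls L y0 := fun v hv => cls_trans (cls_mono hLL' y hv) hy2
      rw [← Finset.sum_sdiff hsub]
      have h0 : ∑ v ∈ cls L' y, ((A ∩ cls L' v).card : ℝ) = 0 := by
        apply Finset.sum_eq_zero
        intro v hv
        rw [Nat.cast_eq_zero, Finset.card_eq_zero, Finset.eq_empty_iff_forall_notMem]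
        intro B hB
        rw [Finset.mem_inter] at hB
        have h1 := cls_trans hB.2 hv
        exact hQ2 B hB.1 (cls_mono (le_sup_right : Q ≤ L') y h1)
      rw [h0, add_zero]
      refine (Finset.sum_le_sum fun v _ => hih v).trans ?_
      rw [Finset.sum_const, nsmul_eq_mul, Finset.card_sdiff_of_subset hsub, card_cls, card_cls]
      have h2 : nAnn L' ≤ nAnn L := by
        rw [← card_cls L' y, ← card_cls L y0]
        exact Finset.card_le_card hsub
      rw [Nat.cast_sub h2]
    have h1 : (∑ v ∈ cls L y0, ((A ∩ cls L' v).card : ℝ)) =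
        ((A ∩ cls L y0).card : ℝ) * nAnn L' := by exact_mod_cast hdc
    rw [h1] at hsplit
    have h2 : ((A ∩ cls L y0).card : ℝ) ≤ ((nAnn L : ℝ) - nAnn L') * ε := by
      refine le_of_mul_le_mul_right (hsplit.trans (le_of_eq ?_)) (nAnn_pos L')
      ring
    refine h2.trans ?_
    have h3 := nAnn_le hLL' hdim
    have h4 : (nAnn L : ℝ) - nAnn L' ≤ (1 - (1 / 2) ^ D) * nAnn L := by linarith
    calc ((nAnn L : ℝ) - nAnn L') * ε ≤ ((1 - (1 / 2) ^ D) * nAnn L) * ε :=
          mul_le_mul_of_nonneg_right h4 hε0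
      _ = (1 - (1 / 2) ^ D) ^ (n + 1) * nAnn L := by
          rw [hε, pow_succ]
          ring

/-- **The bound.** -/
theorem tree_final [DecidableEq (M × N → ZMod 2)] (A : Finset (M × N → ZMod 2))
    (P : Submodule (ZMod 2) (M × N → ZMod 2)) (D n : ℕ)
    (hA : ∀ y : M × N → ZMod 2, (∃ j, ∀ l, y (j, l) = 0) →
      ∃ Q : Submodule (ZMod 2) (M × N → ZMod 2),
        finrank (ZMod 2) (P ⊔ Q : Submodule (ZMod 2) (M × N → ZMod 2)) ≤ finrank (ZMod 2) P + D ∧
        ∀ B ∈ A, B ∉ cls Q y)
    (hP : finrank (ZMod 2) P + n * D < Fintype.card M) :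
    (A.card : ℝ) ≤ (1 - (1 / 2) ^ D) ^ n * 2 ^ (Fintype.card M * Fintype.card N) := by
  have h1 := tree A P D hA n P le_rfl hP
  have h2 := double_count A (bot_le : ⊥ ≤ P) 0
  have hbot : ∀ y : M × N → ZMod 2, cls ⊥ y = univ := by
    intro y
    rw [Finset.eq_univ_iff_forall]
    intro B
    rw [mem_cls]
    intro q hq
    rw [(Submodule.mem_bot _).1 hq, pr_zero_left]
  rw [hbot, Finset.inter_univ] at h2
  have h3 : (A.card : ℝ) * nAnn P = ∑ v : M × N → ZMod 2, ((A ∩ cls P v).card : ℝ) := by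
    exact_mod_cast h2.symm
  have h4 : (A.card : ℝ) * nAnn P ≤
      ((1 - (1 / 2) ^ D) ^ n * 2 ^ (Fintype.card M * Fintype.card N)) * nAnn P := by
    rw [h3]
    refine (Finset.sum_le_sum fun v _ => h1 v).trans ?_
    rw [Finset.sum_const, nsmul_eq_mul, Finset.card_univ, Fintype.card_fun, ZMod.card,
      Fintype.card_prod]
    push_cast
    apply le_of_eq
    ring
  exact le_of_mul_le_mul_right h4 (nAnn_pos P)

end tree

end Pool.Agent.H550R2.WH
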