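import Pool.Agent.H550R2.WH.Red

set_option autoImplicit false
set_option linter.unusedSectionVars false

/-! Hitting set as a query of the second level, and the bounds for the first level. -/

namespace Pool.Agent.H550R2.WH

open Finset Module Pool.Agent.H550R2.Lift Pool.Agent.H550R2.Lin

section bit

variable {I : Type}

/-- the program that tests one entry of the input -/
def bitLP (z : I) : LP I (Fin 0) where
  L :=
    { carrier := {w | w.1 z = 1}
      smul_vsub_vadd_mem' := by
        rintro c ⟨v1, y1⟩ ⟨v2, y2⟩ ⟨v3, y3⟩ h1 h2 h3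
        have e1 : v1 z = 1 := h1
        have e2 : v2 z = 1 := h2
        have e3 : v3 z = 1 := h3
        show c * (v1 z - v2 z) + v3 z = 1
        rw [e1, e2, e3]
        ring }

theorem bitLP_mem (z : I) (v : I → ℝ) (y : Fin 0 → ℝ) : (v, y) ∈ (bitLP z).L ↔ v z = 1 := Iff.rfl

theorem bitLP_acc (z : I) (v : I → ℝ) : (bitLP z).Acc v ↔ v z = 1 := by
  constructor
  · rintro ⟨y, _, h⟩
    exact (bitLP_mem z _ y).1 h
  · intro h
    exact ⟨fun _ => 0, fun _ => le_refl _, (bitLP_mem z _ _).2 h⟩

theorem bitLP_sym (z : I) (g : Equiv.Perm I) (hg : g z = z) : (bitLP z).IsAut g 1 := by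
  intro v y
  rw [bitLP_mem, bitLP_mem]
  have : g.symm z = z := by
    rw [Equiv.symm_apply_eq]
    exact hg.symm
  rw [this]

/-- the algorithm that reads one entry -/
def bitA (z : I) : LAlg I := .test 0 (bitLP z) (.out false) (.out true)

open Classical in
theorem bitA_run (z : I) (v : I → ℝ) : (bitA z).run v = decide (v z = 1) := by
  show (if (bitLP z).Acc v then true else false) = _
  by_cases h : v z = 1
  · rw [if_pos ((bitLP_acc z v).2 h), decide_eq_true h]
  · rw [if_neg (fun h' => h ((bitLP_acc z v).1 h')), decide_eq_false h]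

theorem bitA_sym (z : I) (g : Equiv.Perm I) (hg : g z = z) : (bitA z).Sym g :=
  ⟨⟨1, bitLP_sym z g hg⟩, trivial, trivial⟩

end bit

variable {J : Type} [Fintype J] [DecidableEq J] {κ b : ℕ}

/-- the universe that consists of the elements and the sets -/
abbrev Uni (J : Type) (κ b : ℕ) : Type := Ver (κ + 1) b ⊕ Sets J κ

/-- the translations act on this universe -/
def rhoU : Multiplicative (Idx J κ b → ZMod 2) →* Equiv.Perm (Uni J κ b) where
  toFun g := Equiv.sumCongr (trV fun z => g.toAdd (Sum.inl z)) (trS fun z => g.toAdd (Sum.inr z))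
  map_one' := by
    have h1 : trV (0 : Fin (κ + 1) × Fin b → ZMod 2) = 1 := A_zero trV_add
    have h2 : trS (0 : J × Fin κ → ZMod 2) = 1 := A_zero trS_add
    show Equiv.sumCongr (trV 0) (trS 0) = 1
    rw [h1, h2]
    exact Equiv.sumCongr_refl
  map_mul' := fun g h => by
    show Equiv.sumCongr (trV ((fun z => g.toAdd (Sum.inl z)) + fun z => h.toAdd (Sum.inl z)))
      (trS ((fun z => g.toAdd (Sum.inr z)) + fun z => h.toAdd (Sum.inr z))) = _
    rw [trV_add, trS_add]
    apply Equiv.ext
    rintro (u | s) <;> rfl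

theorem rhoU_inl (y : Idx J κ b → ZMod 2) (u : Ver (κ + 1) b) :
    rhoU (Multiplicative.ofAdd y) (Sum.inl u) =
      (Sum.inl (trV (fun z => y (Sum.inl z)) u) : Uni J κ b) := rfl

theorem rhoU_inr (y : Idx J κ b → ZMod 2) (s : Sets J κ) :
    rhoU (Multiplicative.ofAdd y) (Sum.inr s) =
      (Sum.inr (trS (fun z => y (Sum.inr z)) s) : Uni J κ b) := rfl

/-- the relations: being in block `i`, being a set, incidence -/
def algU : Fin (κ + 1) ⊕ Bool → Uni J κ b → Uni J κ b → LAlg (Ver (κ + 1) b × Sets J κ)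
  | .inl i, .inl u, _ => .out (decide (u.1 = i))
  | .inl _, .inr _, _ => .out false
  | .inr false, .inl _, _ => .out false
  | .inr false, .inr _, _ => .out true
  | .inr true, .inl u, .inr s => bitA (u, s)
  | .inr true, .inl _, .inl _ => .out false
  | .inr true, .inr _, _ => .out false

/-- the reduction that writes down the incidence structure -/
def redU : SRed (Ver (κ + 1) b × Sets J κ) (Idx J κ b) (Fin (κ + 1) ⊕ Bool) (Uni J κ b) 2 pS where
  ρ := rhoU
  alg := fun l o => algU l (o 0) (o 1)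
  sym := by
    intro l o y h
    have h0 := h 0
    have h1 := h 1
    revert h0 h1
    generalize o 0 = p
    generalize o 1 = p'
    intro h0 h1
    rcases l with i | c
    · rcases p with u | s <;> exact trivial
    · cases c
      · rcases p with u | s <;> exact trivial
      · rcases p with u | s
        · rcases p' with u' | s'
          · exact trivial
          · apply bitA_sym
            rw [rhoU_inl] at h0
            rw [rhoU_inr] at h1
            exact Prod.ext (Sum.inl_injective h0) (Sum.inr_injective h1)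
        · exact trivial

theorem redU_size : (redU (J := J) (κ := κ) (b := b)).size = 0 := by
  apply Finset.sum_eq_zero
  intro l _
  apply Finset.sum_eq_zero
  intro o _
  show (algU l (o 0) (o 1)).size = 0
  generalize o 0 = p
  generalize o 1 = p'
  rcases l with i | c
  · rcases p with u | s <;> rfl
  · cases c
    · rcases p with u | s <;> rfl
    · rcases p with u | s
      · rcases p' with u' | s' <;> rfl
      · rfl

theorem redU_equiv : (redU (J := J) (κ := κ) (b := b)).Equivariant := by
  classical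
  intro v y l o
  show (algU l (rhoU (Multiplicative.ofAdd y) (o 0)) (rhoU (Multiplicative.ofAdd y) (o 1))).run
    (fun i => v ((pS y).symm i)) = (algU l (o 0) (o 1)).run v
  generalize o 0 = p
  generalize o 1 = p'
  rcases l with i | c
  · rcases p with u | s
    · rfl
    · rfl
  · cases c
    · rcases p with u | s <;> rfl
    · rcases p with u | s
      · rcases p' with u' | s'
        · rfl
        · rw [rhoU_inl, rhoU_inr]
          show (bitA (trV (fun z => y (Sum.inl z)) u, trS (fun z => y (Sum.inr z)) s')).run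
            (fun i => v ((pS y).symm i)) = (bitA (u, s')).run v
          rw [bitA_run, bitA_run]
          have h1 : (pS y).symm (trV (fun z => y (Sum.inl z)) u,
              trS (fun z => y (Sum.inr z)) s') = (u, s') := (pS y).symm_apply_apply (u, s')
          rw [h1]
      · rfl

theorem algU_inc {E : Ver (κ + 1) b → Sets J κ → Prop} (u : Ver (κ + 1) b) (s : Sets J κ) :
    (algU (Sum.inr true) (Sum.inl u) (Sum.inr s)).run (inc E) = true ↔ E u s := by
  classical
  show (bitA (u, s)).run (inc E) = true ↔ E u s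
  rw [bitA_run, decide_eq_true_iff]
  unfold inc
  by_cases h : E u s
  · rw [if_pos h]
    exact ⟨fun _ => h, fun _ => rfl⟩
  · rw [if_neg h]
    exact ⟨fun h2 => absurd h2 (by norm_num), fun h2 => absurd h2 h⟩

theorem algU_blk {v : Ver (κ + 1) b × Sets J κ → ℝ} (i : Fin (κ + 1)) (p p' : Uni J κ b) :
    (algU (Sum.inl i) p p').run v = true ↔ ∃ x, p = Sum.inl (i, x) := by
  rcases p with u | s
  · show decide (u.1 = i) = true ↔ _
    rw [decide_eq_true_iff]
    constructor
    · intro h
      exact ⟨u.2, by rw [← h]⟩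
    · rintro ⟨x, hx⟩
      rw [Sum.inl_injective hx]
  · constructor
    · intro h
      have h' : false = true := h
      exact absurd h' (by decide)
    · rintro ⟨x, hx⟩
      exact absurd hx (by rintro ⟨⟩)

theorem algU_set {v : Ver (κ + 1) b × Sets J κ → ℝ} (p p' : Uni J κ b) :
    (algU (Sum.inr false) p p').run v = true ↔ ∃ s, p = Sum.inr s := by
  rcases p with u | s
  · constructor
    · intro h
      have h' : false = true := h
      exact absurd h' (by decide)
    · rintro ⟨x, hx⟩
      exact absurd hx (by rintro ⟨⟩)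
  · exact ⟨fun _ => ⟨s, rfl⟩, fun _ => rfl⟩

/-- the query for hitting set -/
def psiU (R : (Fin (κ + 1) ⊕ Bool) → (Fin 2 → Fin (κ + 1) ⊕ Fin 1) → Bool) : Prop :=
  (∀ i, R (Sum.inl i) ![Sum.inl i, Sum.inl i] = true) ∧
    (R (Sum.inr false) ![Sum.inr 0, Sum.inr 0] = true →
      ∃ i, R (Sum.inr true) ![Sum.inl i, Sum.inr 0] = true)

/-- **Hitting set is a query with `k` existential quantifiers and one universal quantifier.** -/
theorem redU_hit (E : Ver (κ + 1) b → Sets J κ → Prop) :
    Sig2 psiU ((redU (J := J) (κ := κ) (b := b)).out (inc E)) ↔ Hit E := by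
  constructor
  · rintro ⟨T, hT⟩
    have h1 : ∀ i, ∃ x, T i = Sum.inl (i, x) := by
      intro i
      obtain ⟨s0⟩ : Nonempty (Fin 1 → Uni J κ b) := ⟨fun _ => T 0⟩
      exact (algU_blk i _ _).1 ((hT s0).1 i)
    choose x hx using h1
    refine ⟨x, fun s => ?_⟩
    obtain ⟨i, hi⟩ := (hT fun _ => Sum.inr s).2
      ((algU_set (Sum.inr s) (Sum.inr s)).2 ⟨s, rfl⟩)
    have h2 : (algU (Sum.inr true) (T i) (Sum.inr s)).run (inc E) = true := hi
    rw [hx i] at h2
    exact ⟨i, (algU_inc _ _).1 h2⟩
  · rintro ⟨x, hx⟩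
    refine ⟨fun i => Sum.inl (i, x i), fun S => ⟨fun i => ?_, fun h => ?_⟩⟩
    · exact (algU_blk i (Sum.inl (i, x i)) (Sum.inl (i, x i))).2 ⟨x i, rfl⟩
    · obtain ⟨s, hs⟩ := (algU_set _ _).1 h
      obtain ⟨i, hi⟩ := hx s
      refine ⟨i, ?_⟩
      have hs' : S 0 = Sum.inr s := hs
      show (algU (Sum.inr true) (Sum.inl (i, x i)) (S 0)).run (inc E) = true
      rw [hs']
      exact (algU_inc _ _).2 hi

/-- **The first level, asymptotic form.** -/
theorem w2_w1 (c d : ℕ) (f g : ℕ → ℕ) (κ : ℕ) (hk : 4 * (c * (d + 1) + 1) ≤ κ + 1) :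
    ∃ h B, ∀ b, B ≤ b → ∀ (Λ Y : Type) [Fintype Λ] [Fintype Y],
      Fintype.card Y ≤ f (κ + 1) * ((κ + 1) * 2 ^ b) ^ c →
      ∀ F : SRed (Ver (κ + 1) b × Sets (Fin (h * b)) κ) (Idx (Fin (h * b)) κ b) Λ Y d pS,
        F.size ≤ f (κ + 1) * ((κ + 1) * 2 ^ b) ^ c →
        ∀ ψ : (Λ → (Fin d → Fin (g (κ + 1))) → Bool) → Prop,
          ¬ ∀ E, Sig1 ψ (F.out (inc E)) ↔ Hit E := by
  classical
  set K : ℕ := f (κ + 1) * (κ + 1) ^ c with hK
  set K' : ℕ := (κ + 1) * K ^ (d + 1) with hK'
  refine ⟨(κ + 1) + g (κ + 1) * (c + 1) + 1, K + K' + 1, fun b hb Λ Y _ _ hY F hs ψ => ?_⟩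
  have hpow : ((κ + 1) * 2 ^ b) ^ c = (κ + 1) ^ c * 2 ^ (b * c) := by rw [mul_pow, pow_mul]
  have hbK : K ≤ 2 ^ b := by
    have : b < 2 ^ b := Nat.lt_two_pow_self
    omega
  have hY' : Fintype.card Y ≤ K * 2 ^ (b * c) := by
    rw [hK, mul_assoc, ← hpow]
    exact hY
  have hs' : F.size ≤ K * 2 ^ (b * c) := by
    rw [hK, mul_assoc, ← hpow]
    exact hs
  refine sig1_core (t := c * (d + 1) + 1) (q := g (κ + 1)) (L := (c + 1) * b) (by omega) hk
    ?_ ?_ F ?_ ψ
  · refine hY'.trans ?_
    calc K * 2 ^ (b * c) ≤ 2 ^ b * 2 ^ (b * c) := Nat.mul_le_mul_right _ hbK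
      _ = 2 ^ ((c + 1) * b) := by
          rw [← pow_add]
          congr 1
          ring
  · rw [Fintype.card_fin]
    have h1 : (κ + 1 + g (κ + 1) * (c + 1) + 1) * b =
        (κ + 1) * b + g (κ + 1) * ((c + 1) * b) + b := by ring
    rw [h1]
    omega
  · have h1 : Fintype.card Y ^ d * F.size ≤ (K * 2 ^ (b * c)) ^ (d + 1) := by
      rw [pow_succ]
      exact Nat.mul_le_mul (Nat.pow_le_pow_left hY' d) hs'
    have h2 : (κ + 1) * (Fintype.card Y ^ d * F.size) ≤ K' * 2 ^ (b * (c * (d + 1))) := by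
      refine (Nat.mul_le_mul_left _ h1).trans (le_of_eq ?_)
      rw [mul_pow, ← pow_mul, hK', mul_assoc, mul_assoc]
    refine lt_of_le_of_lt h2 ?_
    have h3 : K' < 2 ^ b := by
      have : b < 2 ^ b := Nat.lt_two_pow_self
      omega
    calc K' * 2 ^ (b * (c * (d + 1))) < 2 ^ b * 2 ^ (b * (c * (d + 1))) :=
          Nat.mul_lt_mul_of_pos_right h3 (by positivity)
      _ = 2 ^ (b * (c * (d + 1) + 1)) := by
          rw [← pow_add]
          congr 1
          ring
      _ ≤ 2 ^ (b * (c * (d + 1) + 1 + 1)) := by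
          apply Nat.pow_le_pow_right (by norm_num)
          apply Nat.mul_le_mul_left
          omega

end Pool.Agent.H550R2.WH
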