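import Pool.Agent.H550R2.WH.Second
import Pool.Agent.H550R2.WH.Up
import Pool.Agent.H550R2.LP.Asym

set_option autoImplicit false
set_option linter.unusedSectionVars false

/-! The second level: the bounds. -/

namespace Pool.Agent.H550R2.WH

open Finset Module Pool.Agent.H550R2.Lift Pool.Agent.H550R2.Lin

theorem num1 (A D n : ℕ) (h : (1 : ℝ) / 2 ≤ 2 ^ A * (1 - (1 / 2) ^ D) ^ n) :
    n < (A + 1) * 2 ^ D := by
  by_contra hlt
  have hn : (((A + 1) * 2 ^ D : ℕ) : ℝ) ≤ n := by exact_mod_cast not_lt.1 hlt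
  push_cast at hn
  set x : ℝ := (1 / 2) ^ D with hx
  have hx0 : 0 < x := by positivity
  have hx1 : x ≤ 1 := pow_le_one₀ (by norm_num) (by norm_num)
  have h2 : (2 : ℝ) ^ D * x = 1 := by
    rw [hx, ← mul_pow]
    norm_num
  have h3 : (A : ℝ) + 1 ≤ n * x := by
    have h4 := mul_le_mul_of_nonneg_right hn hx0.le
    have h5 : ((A : ℝ) + 1) * 2 ^ D * x = A + 1 := by rw [mul_assoc, h2, mul_one]
    linarith
  have h4 : (1 - x) ^ n ≤ Real.exp (-(n * x)) := by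
    have h5 : 1 - x ≤ Real.exp (-x) := Real.one_sub_le_exp_neg x
    calc (1 - x) ^ n ≤ Real.exp (-x) ^ n := pow_le_pow_left₀ (by linarith) h5 n
      _ = Real.exp (-(n * x)) := by
          rw [← Real.exp_nat_mul]
          congr 1
          ring
  have h5 : (2 : ℝ) ^ A ≤ Real.exp A := by
    have h6 : (2 : ℝ) ≤ Real.exp 1 := by
      have := Real.add_one_le_exp (1 : ℝ)
      linarith
    calc (2 : ℝ) ^ A ≤ Real.exp 1 ^ A := pow_le_pow_left₀ (by norm_num) h6 A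
      _ = Real.exp A := by rw [← Real.exp_nat_mul, mul_one]
  have h6 : (2 : ℝ) ^ A * (1 - x) ^ n ≤ Real.exp (-1) := by
    calc (2 : ℝ) ^ A * (1 - x) ^ n ≤ Real.exp A * Real.exp (-(n * x)) :=
          mul_le_mul h5 h4 (pow_nonneg (by linarith) _) (Real.exp_pos _).le
      _ = Real.exp (A + -(n * x)) := (Real.exp_add _ _).symm
      _ ≤ Real.exp (-1) := Real.exp_le_exp.2 (by linarith)
  have h7 : Real.exp (-1) < 1 / 2 := by
    rw [Real.exp_neg, one_div]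
    apply inv_strictAnti₀ (by norm_num)
    have := Real.exp_one_gt_d9
    linarith
  linarith

theorem num2 (m N : ℕ) (h : 2 * m ≤ 2 ^ N) :
    (1 : ℝ) / 2 * 2 ^ (m * N) ≤ (((2 ^ N - 1) ^ m : ℕ) : ℝ) := by
  have h0 : (((2 ^ N - 1) ^ m : ℕ) : ℝ) = ((2 : ℝ) ^ N - 1) ^ m := by
    rw [Nat.cast_pow, Nat.cast_sub Nat.one_le_two_pow]
    push_cast
    ring
  have h1 : ((2 : ℝ) ^ N - 1) = 2 ^ N * (1 + -(1 / 2) ^ N) := by
    have h2 : (2 : ℝ) ^ N * (1 / 2) ^ N = 1 := by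
      rw [← mul_pow]
      norm_num
    linear_combination h2
  have h2 : (1 : ℝ) + m * -(1 / 2) ^ N ≤ (1 + -(1 / 2) ^ N) ^ m := by
    apply one_add_mul_le_pow
    have : ((1 : ℝ) / 2) ^ N ≤ 1 := pow_le_one₀ (by norm_num) (by norm_num)
    linarith
  have h3 : (m : ℝ) * (1 / 2) ^ N ≤ 1 / 2 := by
    have h4 : (2 : ℝ) * m ≤ 2 ^ N := by exact_mod_cast h
    have h5 : (2 : ℝ) ^ N * (1 / 2) ^ N = 1 := by
      rw [← mul_pow]
      norm_num
    have h6 := mul_le_mul_of_nonneg_right h4 (by positivity : (0 : ℝ) ≤ (1 / 2) ^ N)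
    rw [h5] at h6
    linarith
  rw [h0, h1, mul_pow, ← pow_mul, mul_comm N m, mul_comm]
  apply mul_le_mul_of_nonneg_left _ (by positivity)
  linarith

theorem num3 (κ c q : ℕ) : ∃ B, ∀ b, B ≤ b →
    κ * (q * ((c + 1) * b)) + (q * ((c + 1) * b) + 1) * 2 ^ (b / 8 + 1) * (b / 8 + 1) < 2 ^ b := by
  obtain ⟨G, hG⟩ : ∃ G, G = 2 * (q * (c + 1) + 1) * (κ + 1) + 2 := ⟨_, rfl⟩
  obtain ⟨B1, hB1⟩ := poly_lt (1 / 2) (by norm_num) G
  refine ⟨B1, fun b hb => ?_⟩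
  have hb1 := hB1 b hb
  obtain ⟨A, hA⟩ : ∃ A, A = q * ((c + 1) * b) := ⟨_, rfl⟩
  obtain ⟨e, he⟩ : ∃ e, e = b / 8 := ⟨_, rfl⟩
  obtain ⟨Z, hZ⟩ : ∃ Z, Z = q * (c + 1) + 1 := ⟨_, rfl⟩
  rw [← hA, ← he]
  have heb : e ≤ b := by omega
  have e1 : A + 1 ≤ Z * (b + 1) := by
    have e2 : Z * (b + 1) = A + 1 + (q * (c + 1) + b) := by
      rw [hA, hZ]
      ring
    omega
  have e4 : κ + (e + 1) ≤ (κ + 1) * (b + 1) := by nlinarith
  have e5 : 1 ≤ 2 ^ (e + 1) := Nat.one_le_two_pow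
  have h1 : κ * A + (A + 1) * 2 ^ (e + 1) * (e + 1) ≤
      Z * (b + 1) * (2 * 2 ^ e) * ((κ + 1) * (b + 1)) := by
    calc κ * A + (A + 1) * 2 ^ (e + 1) * (e + 1) ≤
          κ * ((A + 1) * 2 ^ (e + 1)) + (A + 1) * 2 ^ (e + 1) * (e + 1) := by
          apply Nat.add_le_add_right
          apply Nat.mul_le_mul_left
          calc A ≤ (A + 1) * 1 := by omega
            _ ≤ (A + 1) * 2 ^ (e + 1) := Nat.mul_le_mul_left _ e5
      _ = (A + 1) * (2 * 2 ^ e) * (κ + (e + 1)) := by ring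
      _ ≤ Z * (b + 1) * (2 * 2 ^ e) * ((κ + 1) * (b + 1)) :=
          Nat.mul_le_mul (Nat.mul_le_mul_right _ e1) e4
  refine lt_of_le_of_lt h1 ?_
  have hz : (1 : ℝ) ≤ (b : ℝ) + 1 := by
    have : (0 : ℝ) ≤ b := Nat.cast_nonneg b
    linarith
  have f1 : ((b : ℝ) + 1) ^ 2 ≤ ((b : ℝ) + 1) ^ G := pow_le_pow_right₀ hz (by omega)
  have f2 : 2 * (Z : ℝ) * (κ + 1) ≤ G := by
    have : 2 * Z * (κ + 1) ≤ G := by
      rw [hG, hZ]
      omega
    exact_mod_cast this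
  have f3 : (2 : ℝ) ^ e ≤ 2 ^ ((1 / 2 : ℝ) * b) := by
    rw [← Real.rpow_natCast]
    apply Real.rpow_le_rpow_of_exponent_le (by norm_num)
    have h2 : ((2 * e : ℕ) : ℝ) ≤ (b : ℝ) := by
      have : 2 * e ≤ b := by omega
      exact_mod_cast this
    push_cast at h2
    linarith
  have f4 : (2 : ℝ) ^ b = 2 ^ ((1 / 2 : ℝ) * b) * 2 ^ ((1 / 2 : ℝ) * b) := by
    rw [← Real.rpow_add (by norm_num), ← Real.rpow_natCast]
    congr 1
    ring
  have f6 : (0 : ℝ) < 2 ^ ((1 / 2 : ℝ) * b) := by positivity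
  have h2 : ((Z * (b + 1) * (2 * 2 ^ e) * ((κ + 1) * (b + 1)) : ℕ) : ℝ) < ((2 ^ b : ℕ) : ℝ) := by
    push_cast
    calc (Z : ℝ) * (b + 1) * (2 * 2 ^ e) * ((κ + 1) * (b + 1)) =
          (2 * (Z : ℝ) * (κ + 1)) * ((b : ℝ) + 1) ^ 2 * 2 ^ e := by ring
      _ ≤ (G * ((b : ℝ) + 1) ^ G) * 2 ^ ((1 / 2 : ℝ) * b) := by
          apply mul_le_mul _ f3 (by positivity) (by positivity)
          exact mul_le_mul f2 f1 (by positivity) (by positivity)
      _ < 2 ^ ((1 / 2 : ℝ) * b) * 2 ^ ((1 / 2 : ℝ) * b) := by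
          apply mul_lt_mul_of_pos_right _ f6
          linarith
      _ = 2 ^ b := f4.symm
  exact_mod_cast h2

/-- **The second level, asymptotic form.** -/
theorem w3_w2 (c d u : ℕ) (f g : ℕ → ℕ) (κ : ℕ)
    (hk : 18 * ((c * (d + 1) + 1) * ((u + 1) * (c + 1))) ≤ κ + 1) :
    ∃ B, ∀ b, B ≤ b → ∀ (Λ Y : Type) [Fintype Λ] [Fintype Y],
      Fintype.card Y ≤ f (κ + 1) * ((κ + 1) * 2 ^ b) ^ c →
      ∀ F : SRed (Ver (κ + 1) b × Sets (Fin ((κ + 1) * b + 2) ⊕ Fin (2 ^ b) × Fin (2 * b)) κ)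
        (Idx (Fin ((κ + 1) * b + 2) ⊕ Fin (2 ^ b) × Fin (2 * b)) κ b) Λ Y d pS,
        F.Equivariant → F.size ≤ f (κ + 1) * ((κ + 1) * 2 ^ b) ^ c →
        ∀ ψ : (Λ → (Fin d → Fin (g (κ + 1)) ⊕ Fin u) → Bool) → Prop,
          ¬ ∀ E, Sig2 ψ (F.out (inc E)) ↔ Third E := by
  classical
  set t : ℕ := c * (d + 1) + 1 with ht
  set K : ℕ := f (κ + 1) * (κ + 1) ^ c with hK
  set K' : ℕ := 4 * ((κ + 1) * K ^ (d + 1)) with hK'
  set q : ℕ := g (κ + 1) with hq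
  obtain ⟨B1, hB1⟩ := num3 κ c q
  refine ⟨max B1 (K + K' + 1), fun b hb Λ Y _ _ hY F hF hs ψ hok => ?_⟩
  have hbK' : K + K' + 1 ≤ b := (le_max_right _ _).trans hb
  have hpow : ((κ + 1) * 2 ^ b) ^ c = (κ + 1) ^ c * 2 ^ (b * c) := by rw [mul_pow, pow_mul]
  have hb2 : b < 2 ^ b := Nat.lt_two_pow_self
  have hY' : Fintype.card Y ≤ K * 2 ^ (b * c) := by
    rw [hK, mul_assoc, ← hpow]
    exact hY
  have hs' : F.size ≤ K * 2 ^ (b * c) := by
    rw [hK, mul_assoc, ← hpow]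
    exact hs
  have hYL : Fintype.card Y ≤ 2 ^ ((c + 1) * b) := by
    refine hY'.trans ?_
    calc K * 2 ^ (b * c) ≤ 2 ^ b * 2 ^ (b * c) := Nat.mul_le_mul_right _ (by omega)
      _ = 2 ^ ((c + 1) * b) := by
          rw [← pow_add]
          congr 1
          ring
  have hsz : 4 * ((κ + 1) * (Fintype.card Y ^ d * F.size)) ≤ 2 ^ (b * (t + 1)) := by
    have h1 : Fintype.card Y ^ d * F.size ≤ (K * 2 ^ (b * c)) ^ (d + 1) := by
      rw [pow_succ]
      exact Nat.mul_le_mul (Nat.pow_le_pow_left hY' d) hs'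
    have h2 : 4 * ((κ + 1) * (Fintype.card Y ^ d * F.size)) ≤ K' * 2 ^ (b * (c * (d + 1))) := by
      refine (Nat.mul_le_mul_left _ (Nat.mul_le_mul_left _ h1)).trans (le_of_eq ?_)
      rw [mul_pow, ← pow_mul, hK', mul_assoc, mul_assoc, mul_assoc]
    refine h2.trans ?_
    calc K' * 2 ^ (b * (c * (d + 1))) ≤ 2 ^ b * 2 ^ (b * (c * (d + 1))) :=
          Nat.mul_le_mul_right _ (by omega)
      _ = 2 ^ (b * (c * (d + 1) + 1)) := by
          rw [← pow_add]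
          congr 1
          ring
      _ ≤ 2 ^ (b * (t + 1)) := by
          apply Nat.pow_le_pow_right (by norm_num)
          apply Nat.mul_le_mul_left
          omega
  -- the parameters
  set v : ℕ := t * ((u + 1) * (c + 1)) with hv
  have ht1 : 1 ≤ t := by omega
  have htv : t ≤ v := by
    rw [hv]
    exact Nat.le_mul_of_pos_right t (by positivity)
  set D : ℕ := b / 8 + 1 with hD
  have hbD : b ≤ 8 * D := by omega
  set A : ℕ := q * ((c + 1) * b) with hA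
  have hDD : 2 * t * (u * ((c + 1) * b)) ≤ (κ + 1 - 2 * t) * D := by
    have h1 : 16 * v ≤ κ + 1 - 2 * t := by omega
    calc 2 * t * (u * ((c + 1) * b)) ≤ 2 * t * ((u + 1) * ((c + 1) * (8 * D))) := by
          apply Nat.mul_le_mul_left
          exact Nat.mul_le_mul (Nat.le_succ u) (Nat.mul_le_mul_left _ hbD)
      _ = 16 * v * D := by
          rw [hv]
          ring
      _ ≤ (κ + 1 - 2 * t) * D := Nat.mul_le_mul_right _ h1
  have hbig : κ * A + (A + 1) * 2 ^ D * D < Fintype.card (Fin (2 ^ b)) := by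
    rw [Fintype.card_fin]
    exact hB1 b ((le_max_left _ _).trans hb)
  have hfin := sig2_core (n := (A + 1) * 2 ^ D) (by omega) ht1 hYL hDD hbig (by
    rw [Fintype.card_fin]
    apply Nat.add_le_add_right
    exact le_of_eq (mul_comm _ _)) F hsz hF ψ hok
  rw [Fintype.card_fin, Fintype.card_fin] at hfin
  have h1 := num2 (2 ^ b) (2 * b) (by
    calc 2 * 2 ^ b ≤ 2 ^ b * 2 ^ b := Nat.mul_le_mul_right _ (by omega)
      _ = 2 ^ (2 * b) := by
          rw [← pow_add]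
          congr 1
          ring)
  have h2 := h1.trans hfin
  have hX : (0 : ℝ) < 2 ^ (2 ^ b * (2 * b)) := by positivity
  have h3 : (1 : ℝ) / 2 ≤ 2 ^ A * (1 - (1 / 2) ^ D) ^ ((A + 1) * 2 ^ D) :=
    le_of_mul_le_mul_right (h2.trans (le_of_eq (mul_assoc _ _ _).symm)) hX
  exact absurd (num1 A D _ h3) (lt_irrefl _)

end Pool.Agent.H550R2.WH
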